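import Pool.Agent.Q44.JQ.StmC

/-!
# JQ-ADJH
-/

set_option autoImplicit false
set_option linter.unusedVariables false

namespace Q182.JQ.ADJH

open Finset Module Q44.JQ
open Pool.Agent.TH344.JG (PR df)
open scoped Classical

theorem z2 (a : ZMod 2) : a = 0 ∨ a = 1 := by
  revert a; decide

theorem z2_add_self (a : ZMod 2) : a + a = 0 := by
  revert a; decide

/-! ### The characters -/

theorem ct_neg_one {T : Finset ℕ} (o : Option T) : (ct (-1) : Option T → ZMod 2) o =
    if o = none then 1 else 0 := by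
  cases o with
  | none => simp [ct]
  | some t => simp [ct, padicValInt]

theorem ct_mul_some {T : Finset ℕ} (hT : ∀ p ∈ T, p.Prime) {a b : ℤ} (ha : a ≠ 0) (hb : b ≠ 0)
    (t : T) : (ct (a * b) : Option T → ZMod 2) (some t) = ct a (some t) + ct b (some t) := by
  have : Fact (t : ℕ).Prime := ⟨hT t t.2⟩
  show ((padicValInt t (a * b) : ℕ) : ZMod 2) = ((padicValInt t a : ℕ) : ZMod 2) +
    ((padicValInt t b : ℕ) : ZMod 2)
  rw [padicValInt.mul ha hb]
  push_cast
  ring

theorem pr_eq {T : Finset ℕ} {φ : Option T → ZMod 2} (hφ : φ none = 0) (z : ℤ) :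
    pr φ z = ∑ t : T, φ (some t) * ct z (some t) := by
  unfold pr
  rw [Fintype.sum_option, hφ, zero_mul, zero_add]

theorem pr_mul {T : Finset ℕ} (hT : ∀ p ∈ T, p.Prime) {φ : Option T → ZMod 2} (hφ : φ none = 0)
    {a b : ℤ} (ha : a ≠ 0) (hb : b ≠ 0) : pr φ (a * b) = pr φ a + pr φ b := by
  rw [pr_eq hφ, pr_eq hφ, pr_eq hφ, ← sum_add_distrib]
  refine sum_congr rfl fun t _ => ?_
  rw [ct_mul_some hT ha hb]
  ring

/-- linear algebra: a label with given values -/
theorem exists_lbl {T : Finset ℕ} {X : Type} [Fintype X] (d : X → ℤ)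
    (ind : ∀ (w : X → ZMod 2) (w₀ : ZMod 2), (∑ x, w x • (ct (d x) : Option T → ZMod 2)) +
      w₀ • (ct (-1) : Option T → ZMod 2) = 0 → w = 0) (x₀ : X) :
    ∃ φ : Option T → ZMod 2, φ none = 0 ∧ pr φ (d x₀) = 1 ∧ ∀ x, x ≠ x₀ → pr φ (d x) = 0 := by
  let Φ : (Option T → ZMod 2) →ₗ[ZMod 2] ((X → ZMod 2) × ZMod 2) :=
    { toFun := fun φ => (fun x => ∑ o, φ o * ct (d x) o, φ none)
      map_add' := fun φ φ' => by
        refine Prod.ext (funext fun x => ?_) rfl
        simp only [Pi.add_apply, Prod.mk_add_mk, add_mul, sum_add_distrib]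
      map_smul' := fun a φ => by
        refine Prod.ext (funext fun x => ?_) rfl
        simp only [Pi.smul_apply, smul_eq_mul, RingHom.id_apply, Prod.smul_mk, mul_sum, mul_assoc] }
  by_cases h : ((Pi.single x₀ 1 : X → ZMod 2), (0 : ZMod 2)) ∈ LinearMap.range Φ
  · obtain ⟨φ, hφ⟩ := h
    have h1 : ∀ x, (Φ φ).1 x = (Pi.single x₀ 1 : X → ZMod 2) x :=
      fun x => congrFun (congrArg Prod.fst hφ) x
    refine ⟨φ, congrArg Prod.snd hφ, ?_, fun x hx => ?_⟩
    · have h2 := h1 x₀
      rw [Pi.single_eq_same] at h2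
      exact h2
    · have h2 := h1 x
      rw [Pi.single_eq_of_ne hx] at h2
      exact h2
  · exfalso
    obtain ⟨f, hf, hf2⟩ := Submodule.exists_dual_map_eq_bot_of_notMem h inferInstance
    have hf3 : ∀ φ, f (Φ φ) = 0 := by
      intro φ
      have h1 : f (Φ φ) ∈ (LinearMap.range Φ).map f := Submodule.mem_map_of_mem ⟨φ, rfl⟩
      rw [hf2] at h1
      exact h1
    set w : X → ZMod 2 := fun x => f (Pi.single x 1, 0) with hw
    set w₀ : ZMod 2 := f (0, 1) with hw₀
    have hfv : ∀ (v : X → ZMod 2) (v₀ : ZMod 2), f (v, v₀) = ∑ x, v x * w x + v₀ * w₀ := by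
      intro v v₀
      have h1 : ((v, v₀) : (X → ZMod 2) × ZMod 2) =
          ∑ x, v x • ((Pi.single x 1, 0) : (X → ZMod 2) × ZMod 2) + v₀ • (0, 1) := by
        refine Prod.ext ?_ ?_
        · rw [Prod.fst_add, Prod.fst_sum]
          simp only [Prod.smul_mk, smul_zero, add_zero]
          funext y
          rw [Finset.sum_apply]
          simp only [Pi.smul_apply, Pi.single_apply, smul_eq_mul, mul_ite, mul_one, mul_zero]
          rw [Finset.sum_ite_eq univ y v, if_pos (mem_univ _)]
        · rw [Prod.snd_add, Prod.snd_sum]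
          simp only [Prod.smul_mk, smul_eq_mul, mul_zero, sum_const_zero, zero_add, mul_one]
      rw [h1, map_add, map_sum, map_smul, smul_eq_mul]
      simp only [map_smul, smul_eq_mul]
      rfl
    have h2 : (∑ x, w x • (ct (d x) : Option T → ZMod 2)) +
        w₀ • (ct (-1) : Option T → ZMod 2) = 0 := by
      funext o
      rw [Pi.add_apply, Finset.sum_apply, Pi.smul_apply, ct_neg_one, Pi.zero_apply]
      have h3 := hf3 (Pi.single o 1)
      have h4 : Φ (Pi.single o 1) = (fun x => ct (d x) o, if o = none then 1 else 0) := by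
        refine Prod.ext (funext fun x => ?_) ?_
        · show ∑ o', (Pi.single o 1 : Option T → ZMod 2) o' * ct (d x) o' = ct (d x) o
          rw [Finset.sum_eq_single o]
          · rw [Pi.single_eq_same, one_mul]
          · intro o' _ ho
            rw [Pi.single_eq_of_ne ho, zero_mul]
          · intro h5
            exact absurd (mem_univ _) h5
        · show (Pi.single o 1 : Option T → ZMod 2) none = _
          rw [Pi.single_apply]
          by_cases h5 : o = none
          · rw [if_pos h5, if_pos h5.symm]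
          · rw [if_neg h5, if_neg (Ne.symm h5)]
      rw [h4, hfv] at h3
      refine Eq.trans ?_ h3
      refine congrArg₂ (· + ·) ?_ ?_
      · refine sum_congr rfl fun x _ => ?_
        rw [Pi.smul_apply, smul_eq_mul, mul_comm]
      · rw [smul_eq_mul, mul_comm]
    have h5 := congrFun (ind w w₀ h2) x₀
    exact hf h5

/-! ### The rank one operators -/

/-- the vector `e_i + e_j` -/
def vv {n : ℕ} (i j : Fin n) : VV n := ⟨Pi.single i 1 + Pi.single j 1, by
  rw [mem_VV]
  simp only [Pi.add_apply, sum_add_distrib, Finset.sum_pi_single', mem_univ, if_true]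
  decide⟩

theorem vv_apply {n : ℕ} (i j l : Fin n) : (vv i j).1 l =
    (if l = i then 1 else 0) + (if l = j then 1 else 0) := by
  show (Pi.single i 1 + Pi.single j 1 : Fin n → ZMod 2) l = _
  rw [Pi.add_apply, Pi.single_apply, Pi.single_apply]

theorem om_apply {n : ℕ} (x y : VV n) : omV n x y = ∑ i, x.1 i * y.1 i := rfl

theorem om_vv {n : ℕ} (i j : Fin n) (x : VV n) : omV n (vv i j) x = x.1 i + x.1 j := by
  rw [om_apply]
  simp only [vv_apply, add_mul, sum_add_distrib, ite_mul, one_mul, zero_mul,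
    Finset.sum_ite_eq', mem_univ, if_true]

/-- the rank one operator -/
noncomputable def rk {n : ℕ} (v w : VV n) : Module.End (ZMod 2) (VV n) :=
  LinearMap.smulRight (omV n w) v

theorem rk_apply {n : ℕ} (v w x : VV n) : rk v w x = omV n w x • v := rfl

theorem rk_mul {n : ℕ} (v w v' w' : VV n) : rk v w * rk v' w' = omV n w v' • rk v w' := by
  refine LinearMap.ext fun x => ?_
  rw [Module.End.mul_apply, rk_apply, rk_apply, map_smul, smul_eq_mul, LinearMap.smul_apply,
    rk_apply, smul_smul, mul_comm]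

theorem rk_sum_left {n : ℕ} {ι : Type} (s : Finset ι) (a : ι → ZMod 2) (v : ι → VV n) (w : VV n) :
    rk (∑ l ∈ s, a l • v l) w = ∑ l ∈ s, a l • rk (v l) w := by
  refine LinearMap.ext fun x => ?_
  rw [rk_apply, LinearMap.sum_apply, smul_sum]
  refine sum_congr rfl fun l _ => ?_
  rw [LinearMap.smul_apply, rk_apply, smul_comm]

theorem rk_sum_right {n : ℕ} {ι : Type} (s : Finset ι) (a : ι → ZMod 2) (v : VV n) (w : ι → VV n) :
    rk v (∑ l ∈ s, a l • w l) = ∑ l ∈ s, a l • rk v (w l) := by
  refine LinearMap.ext fun x => ?_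
  rw [rk_apply, LinearMap.sum_apply, map_sum, LinearMap.sum_apply, sum_smul]
  refine sum_congr rfl fun l _ => ?_
  rw [LinearMap.smul_apply, rk_apply, map_smul, LinearMap.smul_apply, smul_eq_mul, smul_smul]

/-- the expansion of a vector -/
theorem expand {n : ℕ} (j : Fin n) (x : VV n) : x = ∑ l, x.1 l • vv l j := by
  refine Subtype.ext ?_
  rw [Submodule.coe_sum]
  funext i
  rw [Finset.sum_apply]
  simp only [Submodule.coe_smul, Pi.smul_apply, vv_apply, smul_eq_mul, mul_add, sum_add_distrib,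
    mul_ite, mul_one, mul_zero, Finset.sum_ite_eq, mem_univ, if_true]
  by_cases h : i = j
  · simp only [if_pos h]
    rw [mem_VV.1 x.2, add_zero]
  · simp only [if_neg h, sum_const_zero, add_zero]

/-- a subspace closed under multiplication which contains the `rk (vv i j) (vv i j)` is everything -/
theorem all_mem {n : ℕ} (hn : ((n : ℕ) : ZMod 2) = 1) (B : Submodule (ZMod 2) (Module.End (ZMod 2) (VV n)))
    (hmul : ∀ f ∈ B, ∀ g ∈ B, f * g ∈ B)
    (hB : ∀ i j : Fin n, i < j → rk (vv i j) (vv i j) ∈ B) (f : Module.End (ZMod 2) (VV n)) :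
    f ∈ B := by
  have hsym : ∀ i j : Fin n, vv i j = vv j i := fun i j => Subtype.ext (add_comm _ _)
  have hself : ∀ i : Fin n, vv i i = 0 := by
    intro i
    refine Subtype.ext (funext fun l => ?_)
    rw [vv_apply]
    exact z2_add_self _
  have hB2 : ∀ i j : Fin n, rk (vv i j) (vv i j) ∈ B := by
    intro i j
    rcases lt_trichotomy i j with h | h | h
    · exact hB i j h
    · subst h
      rw [hself]
      have h1 : rk (0 : VV n) 0 = 0 := by
        refine LinearMap.ext fun x => ?_
        rw [rk_apply, smul_zero, LinearMap.zero_apply]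
      rw [h1]
      exact B.zero_mem
    · rw [hsym]
      exact hB j i h
  have h1 : ∀ i j : Fin n, ∀ w : VV n, rk (vv i j) w ∈ B := by
    intro i j w
    by_cases hij : i = j
    · subst hij
      rw [hself]
      have h1 : rk (0 : VV n) w = 0 := by
        refine LinearMap.ext fun x => ?_
        rw [rk_apply, smul_zero, LinearMap.zero_apply]
      rw [h1]
      exact B.zero_mem
    rw [expand j w, rk_sum_right]
    refine B.sum_mem fun l _ => B.smul_mem _ ?_
    by_cases hlj : l = j
    · subst hlj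
      rw [hself]
      have h1 : rk (vv i l) 0 = 0 := by
        refine LinearMap.ext fun x => ?_
        rw [rk_apply, map_zero, LinearMap.zero_apply, zero_smul, LinearMap.zero_apply]
      rw [h1]
      exact B.zero_mem
    by_cases hli : l = i
    · subst hli
      exact hB2 l j
    have h2 := hmul _ (hB2 i j) _ (hB2 l j)
    rw [rk_mul, om_vv, vv_apply, vv_apply, if_neg (Ne.symm hli), if_neg hij, if_neg (Ne.symm hlj),
      if_pos rfl, add_zero, zero_add, zero_add, one_smul] at h2
    exact h2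
  have hn0 : n ≠ 0 := by
    rintro rfl
    rw [Nat.cast_zero] at hn
    exact absurd hn (by decide)
  have : NeZero n := ⟨hn0⟩
  have h2 : ∀ v w : VV n, rk v w ∈ B := by
    intro v w
    rw [expand (0 : Fin n) v, rk_sum_left]
    exact B.sum_mem fun l _ => B.smul_mem _ (h1 _ _ _)
  -- the dual vectors
  have h3 : ∀ l : Fin n, ∃ w : VV n, ∀ x : VV n, omV n w x = x.1 l := by
    intro l
    refine ⟨⟨fun i => if i = l then 0 else 1, ?_⟩, fun x => ?_⟩
    · rw [mem_VV]
      have h4 : ∀ i : Fin n, (if i = l then (0 : ZMod 2) else 1) = 1 + if i = l then 1 else 0 := by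
        intro i
        by_cases h5 : i = l
        · rw [if_pos h5, if_pos h5]
          decide
        · rw [if_neg h5, if_neg h5]
          decide
      rw [sum_congr rfl fun i _ => h4 i, sum_add_distrib, Finset.sum_ite_eq' univ l fun _ => 1,
        if_pos (mem_univ _), sum_const, card_univ, Fintype.card_fin, nsmul_eq_mul, hn]
      decide
    · rw [om_apply]
      have h4 : ∀ i : Fin n, (if i = l then (0 : ZMod 2) else 1) * x.1 i =
          x.1 i + if i = l then x.1 i else 0 := by
        intro i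
        by_cases h5 : i = l
        · rw [if_pos h5, if_pos h5, zero_mul, z2_add_self]
        · rw [if_neg h5, if_neg h5, one_mul, add_zero]
      show ∑ i, (if i = l then (0 : ZMod 2) else 1) * x.1 i = x.1 l
      rw [sum_congr rfl fun i _ => h4 i, sum_add_distrib, mem_VV.1 x.2, zero_add,
        Finset.sum_ite_eq' univ l fun i => x.1 i, if_pos (mem_univ _)]
  choose w hw using h3
  have h4 : f = ∑ l, rk (f (vv l 0)) (w l) := by
    refine LinearMap.ext fun x => ?_
    rw [LinearMap.sum_apply]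
    conv_lhs => rw [expand (0 : Fin n) x]
    rw [map_sum]
    refine sum_congr rfl fun l _ => ?_
    rw [map_smul, rk_apply, hw]
  rw [h4]
  exact B.sum_mem fun l _ => h2 _ _

/-! ### The operators of the curves -/

/-- the value of `T φ` for a label with values zero at all differences except one -/
theorem TT_eq {T : Finset ℕ} (hT : ∀ p ∈ T, p.Prime) (c : Cr T) (u : ℤ) (hu : u ≠ 0)
    (hs : ∀ p : ℕ, p.Prime → (p : ℤ) ∣ u → p ∈ T) {φ : Option T → ZMod 2} (hφ : φ none = 0)
    (y : PR (2 * c.g + 1) → ZMod 2) (hy : ∀ x, pr φ (df c.a x) = y x)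
    (x : VV (2 * c.g + 1)) :
    (((c.mul u hu hs).TT φ : Module.End (ZMod 2) (VV (2 * c.g + 1))) x) =
      pr φ u • x + ∑ p : PR (2 * c.g + 1), y p • rk (vv p.1.1 p.1.2) (vv p.1.1 p.1.2) x := by
  refine Subtype.ext (funext fun (i : Fin (2 * c.g + 1)) => ?_)
  show (c.mul u hu hs).tf φ x.1 i = (pr φ u • x + ∑ p : PR (2 * c.g + 1), y p •
    rk (vv p.1.1 p.1.2) (vv p.1.1 p.1.2) x : VV (2 * c.g + 1)).1 i
  have hsub : ∀ i j, i ≠ j → c.a i - c.a j ≠ 0 := fun i j h => sub_ne_zero.2 fun h2 => h (c.inj h2)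
  have h1 : ∀ j ∈ univ.erase i, pr φ ((c.mul u hu hs).a i - (c.mul u hu hs).a j) * (x.1 i + x.1 j) =
      pr φ u * (x.1 i + x.1 j) + pr φ (c.a i - c.a j) * (x.1 i + x.1 j) := by
    intro j hj
    have hij : i ≠ j := (ne_of_mem_erase hj).symm
    have h2 : (c.mul u hu hs).a i - (c.mul u hu hs).a j = u * (c.a i - c.a j) := by
      show u * c.a i - u * c.a j = _
      ring
    rw [h2, pr_mul hT hφ hu (hsub i j hij), add_mul]
  have h3 : ∑ j ∈ univ.erase i, (x.1 i + x.1 j) = x.1 i := by
    have h4 : ∑ j, (x.1 i + x.1 j) = (x.1 i + x.1 i) + ∑ j ∈ univ.erase i, (x.1 i + x.1 j) :=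
      (Finset.add_sum_erase univ (fun j => x.1 i + x.1 j) (mem_univ i)).symm
    rw [z2_add_self, zero_add] at h4
    rw [← h4, sum_add_distrib, mem_VV.1 x.2, add_zero, sum_const, card_univ, Fintype.card_fin,
      nsmul_eq_mul]
    push_cast
    have h5 : (2 : ZMod 2) = 0 := by decide
    rw [h5]
    ring
  have h0 : (c.mul u hu hs).tf φ x.1 i = ∑ j ∈ (univ : Finset (Fin (2 * c.g + 1))).erase i,
      pr φ ((c.mul u hu hs).a i - (c.mul u hu hs).a j) * (x.1 i + x.1 j) +
    φ none * x.1 i := rfl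
  rw [h0, sum_congr rfl h1, sum_add_distrib, ← mul_sum, h3, hφ, zero_mul, add_zero]
  rw [Submodule.coe_add, Pi.add_apply, Submodule.coe_smul, Pi.smul_apply, smul_eq_mul,
    Submodule.coe_sum, Finset.sum_apply]
  refine congrArg₂ (· + ·) rfl ?_
  -- the second sum
  have hpr : ∀ i j : Fin (2 * c.g + 1), i ≠ j → pr φ (c.a i - c.a j) = pr φ (c.a j - c.a i) := by
    intro i j hij
    have h5 : c.a i - c.a j = -(c.a j - c.a i) := by ring
    rw [h5, pr_neg φ (hsub j i hij.symm), hφ, add_zero]
  -- the sum over the pairs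
  have h6 : ∀ p : PR (2 * c.g + 1), ((y p • rk (vv p.1.1 p.1.2) (vv p.1.1 p.1.2) x : VV _) :
      Fin (2 * c.g + 1) → ZMod 2) i =
      (fun q : Fin (2 * c.g + 1) × Fin (2 * c.g + 1) => pr φ (c.a q.1 - c.a q.2) *
        ((x.1 q.1 + x.1 q.2) * ((if i = q.1 then 1 else 0) + (if i = q.2 then 1 else 0)))) p.1 := by
    intro p
    rw [Submodule.coe_smul, Pi.smul_apply, smul_eq_mul, rk_apply, Submodule.coe_smul, Pi.smul_apply,
      smul_eq_mul, om_vv, vv_apply, ← hy]
    rfl
  rw [sum_congr rfl fun p _ => h6 p]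
  have h7 : ∑ p : PR (2 * c.g + 1), (fun q : Fin (2 * c.g + 1) × Fin (2 * c.g + 1) =>
      pr φ (c.a q.1 - c.a q.2) *
        ((x.1 q.1 + x.1 q.2) * ((if i = q.1 then 1 else 0) + (if i = q.2 then 1 else 0)))) p.1 =
      ∑ q ∈ univ.filter (fun q : Fin (2 * c.g + 1) × Fin (2 * c.g + 1) => q.1 < q.2),
        pr φ (c.a q.1 - c.a q.2) *
        ((x.1 q.1 + x.1 q.2) * ((if i = q.1 then 1 else 0) + (if i = q.2 then 1 else 0))) := by
    symm
    refine Finset.sum_subtype _ (fun q => ?_) _
    rw [mem_filter]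
    exact ⟨fun h => h.2, fun h => ⟨mem_univ _, h⟩⟩
  rw [h7, Finset.sum_filter, Fintype.sum_prod_type]
  set F : Fin (2 * c.g + 1) → Fin (2 * c.g + 1) → ZMod 2 :=
    fun k l => pr φ (c.a k - c.a l) * (x.1 k + x.1 l) with hF
  have hFs : ∀ k l, k ≠ l → F k l = F l k := by
    intro k l hkl
    show pr φ (c.a k - c.a l) * (x.1 k + x.1 l) = pr φ (c.a l - c.a k) * (x.1 l + x.1 k)
    rw [hpr k l hkl, add_comm (x.1 k)]
  have h8 : ∀ k l : Fin (2 * c.g + 1), (if k < l then pr φ (c.a k - c.a l) *
      ((x.1 k + x.1 l) * ((if i = k then 1 else 0) + (if i = l then 1 else 0))) else 0) =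
      (if i = k then (if k < l then F k l else 0) else 0) +
      (if i = l then (if k < l then F k l else 0) else 0) := by
    intro k l
    rw [hF]
    split_ifs <;> ring
  have h9 : ∑ k, ∑ l, (if k < l then pr φ (c.a k - c.a l) *
      ((x.1 k + x.1 l) * ((if i = k then 1 else 0) + (if i = l then 1 else 0))) else 0) =
      ∑ l, (if i < l then F i l else 0) + ∑ k, (if k < i then F k i else 0) := by
    simp only [h8, sum_add_distrib]
    refine congrArg₂ (· + ·) ?_ ?_
    · rw [Finset.sum_comm]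
      refine sum_congr rfl fun l _ => ?_
      rw [Finset.sum_ite_eq univ i fun k => if k < l then F k l else 0, if_pos (mem_univ _)]
    · refine sum_congr rfl fun k _ => ?_
      rw [Finset.sum_ite_eq univ i fun l => if k < l then F k l else 0, if_pos (mem_univ _)]
  refine Eq.trans ?_ h9.symm
  rw [← sum_add_distrib]
  have h10 : ∀ j, ((if i < j then F i j else 0) + if j < i then F j i else 0) =
      if j = i then 0 else F i j := by
    intro j
    rcases lt_trichotomy i j with h | h | h
    · rw [if_pos h, if_neg h.asymm, if_neg h.ne', add_zero]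
    · subst h
      rw [if_neg (lt_irrefl _), if_pos rfl, add_zero]
    · rw [if_neg h.asymm, if_pos h, if_neg h.ne, zero_add, hFs j i h.ne]
  rw [sum_congr rfl fun j _ => h10 j]
  rw [← Finset.sum_erase univ (a := i) (f := fun j => if j = i then 0 else F i j) (if_pos rfl)]
  refine sum_congr rfl fun j hj => ?_
  rw [if_neg (ne_of_mem_erase hj)]

theorem t_ADJH : S_ADJH := by
  intro T hT h2 κ _ c u hu hs ind 𝓛
  set A : Subalgebra (ZMod 2) (∀ k, Module.End (ZMod 2) (VV (2 * (c k).g + 1))) :=
    Algebra.adjoin (ZMod 2) (Set.range fun φ : {φ : Option T → ZMod 2 // φ none = 0} =>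
      (fun k => ((c k).mul u hu hs).TT φ.1 :
        ∀ k, Module.End (ZMod 2) (VV (2 * (c k).g + 1)))) with hA
  show A = ⊤
  have hgen : ∀ φ : Option T → ZMod 2, φ none = 0 → (fun k => ((c k).mul u hu hs).TT φ :
        ∀ k, Module.End (ZMod 2) (VV (2 * (c k).g + 1))) ∈ A := fun φ hφ =>
    Algebra.subset_adjoin ⟨⟨φ, hφ⟩, rfl⟩
  -- the rank one operators
  have h1 : ∀ (k₀ : κ) (i j : Fin (2 * (c k₀).g + 1)), i < j →
      (Pi.single k₀ (rk (vv i j) (vv i j)) :
        ∀ k, Module.End (ZMod 2) (VV (2 * (c k).g + 1))) ∈ A := by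
    intro k₀ i j hij
    obtain ⟨φ, hφ, hφ1, hφ2⟩ := exists_lbl (T := T)
      (fun x : (Σ k, PR (2 * (c k).g + 1)) => df (c x.1).a x.2) ind ⟨k₀, ⟨(i, j), hij⟩⟩
    obtain ⟨G, hG⟩ : ∃ G : ∀ k, Module.End (ZMod 2) (VV (2 * (c k).g + 1)),
        ∀ k, G k = ((c k).mul u hu hs).TT φ := ⟨fun k => ((c k).mul u hu hs).TT φ, fun k => rfl⟩
    have h3 : G ∈ A := by
      have h6 : G = (fun k => ((c k).mul u hu hs).TT φ :
        ∀ k, Module.End (ZMod 2) (VV (2 * (c k).g + 1))) := funext hG
      rw [h6]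
      exact hgen φ hφ
    have h6 : (pr φ u • (1 : ∀ k, Module.End (ZMod 2) (VV (2 * (c k).g + 1)))) ∈ A :=
      A.smul_mem A.one_mem _
    have h4 : G + pr φ u • (1 : ∀ k, Module.End (ZMod 2) (VV (2 * (c k).g + 1))) =
        (Pi.single k₀ (rk (vv i j) (vv i j)) :
        ∀ k, Module.End (ZMod 2) (VV (2 * (c k).g + 1))) := by
      funext k
      refine LinearMap.ext fun x => ?_
      have h5 : G k x = pr φ u • x + ∑ p : PR (2 * (c k).g + 1), pr φ (df (c k).a p) •
          rk (vv p.1.1 p.1.2) (vv p.1.1 p.1.2) x := by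
        rw [hG k]
        exact TT_eq hT (c k) u hu hs hφ (fun p => pr φ (df (c k).a p)) (fun p => rfl) x
      rw [Pi.add_apply, LinearMap.add_apply, h5, Pi.smul_apply, LinearMap.smul_apply,
        Pi.one_apply, Module.End.one_apply]
      have h7 : ∀ v w : VV (2 * (c k).g + 1), v + w + v = w := by
        intro v w
        have h8 : v + v = 0 := Subtype.ext (funext fun l => z2_add_self _)
        rw [add_right_comm, h8, zero_add]
      rw [h7]
      by_cases hk : k = k₀
      · subst hk
        rw [Pi.single_eq_same]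
        rw [Finset.sum_eq_single (⟨(i, j), hij⟩ : PR (2 * (c k).g + 1))]
        · have h8 : pr φ (df (c k).a ⟨(i, j), hij⟩) = 1 := hφ1
          rw [h8, one_smul]
        · intro p _ hp
          have h8 : pr φ (df (c k).a p) = 0 :=
            hφ2 ⟨k, p⟩ fun h6 => hp (eq_of_heq (Sigma.mk.inj h6).2)
          rw [h8, zero_smul]
        · intro h6
          exact absurd (mem_univ _) h6
      · rw [Pi.single_eq_of_ne hk, LinearMap.zero_apply]
        refine Finset.sum_eq_zero fun p _ => ?_
        have h8 : pr φ (df (c k).a p) = 0 := hφ2 ⟨k, p⟩ fun h6 => hk (congrArg Sigma.fst h6)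
        rw [h8, zero_smul]
    rw [← h4]
    exact A.add_mem h3 h6
  -- everything
  have h5 : ∀ (k₀ : κ) (f : Module.End (ZMod 2) (VV (2 * (c k₀).g + 1))),
      (Pi.single k₀ f : ∀ k, Module.End (ZMod 2) (VV (2 * (c k).g + 1))) ∈ A := by
    intro k₀ f
    refine all_mem ?_ ((Subalgebra.toSubmodule A).comap (LinearMap.single (ZMod 2)
      (fun k => Module.End (ZMod 2) (VV (2 * (c k).g + 1))) k₀)) ?_ ?_ f
    · push_cast
      have h5 : (2 : ZMod 2) = 0 := by decide
      rw [h5]
      ring
    · intro f hf g hg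
      have h6 := A.mul_mem hf hg
      rw [LinearMap.single_apply, LinearMap.single_apply, ← Pi.single_mul] at h6
      exact h6
    · intro i j hij
      exact h1 k₀ i j hij
  refine eq_top_iff.2 fun F _ => ?_
  rw [← Finset.univ_sum_single F]
  exact A.sum_mem fun k _ => h5 k (F k)

end Q182.JQ.ADJH
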