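import Pool.Agent.Q44.JQ.StmF
import Pool.Agent.Q182.JQ.ADJH

/-!
# JQ-ADJM
-/

set_option autoImplicit false
set_option linter.unusedVariables false

namespace Q182.JQ.ADJM

open Finset Module Q44.JQ Q182.JQ.ADJH
open Pool.Agent.TH344.JG (PR df)
open scoped Classical

theorem ct_mul {T : Finset ℕ} (hT : ∀ p ∈ T, p.Prime) {a b : ℤ} (ha : a ≠ 0) (hb : b ≠ 0)
    (o : Option T) : (ct (a * b) : Option T → ZMod 2) o = ct a o + ct b o := by
  cases o with
  | some t => exact ct_mul_some hT ha hb t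
  | none =>
    show (if a * b < 0 then (1 : ZMod 2) else 0) = (if a < 0 then 1 else 0) + (if b < 0 then 1 else 0)
    rcases lt_or_gt_of_ne ha with h | h <;> rcases lt_or_gt_of_ne hb with h' | h'
    · rw [if_neg (not_lt.2 (mul_pos_of_neg_of_neg h h').le), if_pos h, if_pos h']
      decide
    · rw [if_pos (mul_neg_of_neg_of_pos h h'), if_pos h, if_neg h'.asymm]
      decide
    · rw [if_pos (mul_neg_of_pos_of_neg h h'), if_neg h.asymm, if_pos h']
      decide
    · rw [if_neg (mul_pos h h').asymm, if_neg h.asymm, if_neg h'.asymm]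
      decide

theorem pr_mul' {T : Finset ℕ} (hT : ∀ p ∈ T, p.Prime) (φ : Option T → ZMod 2)
    {a b : ℤ} (ha : a ≠ 0) (hb : b ≠ 0) : pr φ (a * b) = pr φ a + pr φ b := by
  unfold pr
  rw [← sum_add_distrib]
  refine sum_congr rfl fun t _ => ?_
  rw [ct_mul hT ha hb]
  ring

/-- the operators of the twist -/
theorem TT_mul {T : Finset ℕ} (hT : ∀ p ∈ T, p.Prime) (c : Cr T) (u : ℤ) (hu : u ≠ 0)
    (hs : ∀ p : ℕ, p.Prime → (p : ℤ) ∣ u → p ∈ T) (φ : Option T → ZMod 2)
    (x : VV (2 * c.g + 1)) :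
    (((c.mul u hu hs).TT φ : Module.End (ZMod 2) (VV (2 * c.g + 1))) x) =
      pr φ u • x + (c.TT φ : Module.End (ZMod 2) (VV (2 * c.g + 1))) x := by
  refine Subtype.ext (funext fun (i : Fin (2 * c.g + 1)) => ?_)
  have hsub : ∀ i j, i ≠ j → c.a i - c.a j ≠ 0 := fun i j h => sub_ne_zero.2 fun h2 => h (c.inj h2)
  have h1 : ∀ j ∈ univ.erase i, pr φ ((c.mul u hu hs).a i - (c.mul u hu hs).a j) * (x.1 i + x.1 j) =
      pr φ u * (x.1 i + x.1 j) + pr φ (c.a i - c.a j) * (x.1 i + x.1 j) := by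
    intro j hj
    have hij : i ≠ j := (ne_of_mem_erase hj).symm
    have h2 : (c.mul u hu hs).a i - (c.mul u hu hs).a j = u * (c.a i - c.a j) := by
      show u * c.a i - u * c.a j = _
      ring
    rw [h2, pr_mul' hT φ hu (hsub i j hij), add_mul]
  have h3 : ∑ j ∈ univ.erase i, (x.1 i + x.1 j) = x.1 i := by
    have h4 : ∑ j, (x.1 i + x.1 j) = (x.1 i + x.1 i) + ∑ j ∈ univ.erase i, (x.1 i + x.1 j) :=
      (Finset.add_sum_erase univ (fun j => x.1 i + x.1 j) (mem_univ i)).symm
    rw [z2_add_self, zero_add] at h4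
    rw [← h4, sum_add_distrib, mem_VV.1 x.2, add_zero, sum_const, card_univ, Fintype.card_fin,
      nsmul_eq_mul]
    push_cast
    have h5 : (2 : ZMod 2) = 0 := by decide
    rw [h5]
    ring
  have h0 : (c.mul u hu hs).tf φ x.1 i = ∑ j ∈ (univ : Finset (Fin (2 * c.g + 1))).erase i,
      pr φ ((c.mul u hu hs).a i - (c.mul u hu hs).a j) * (x.1 i + x.1 j) +
    φ none * x.1 i := rfl
  show (c.mul u hu hs).tf φ x.1 i = (pr φ u • x.1 i + c.tf φ x.1 i)
  rw [h0, sum_congr rfl h1, sum_add_distrib, ← mul_sum, h3, add_assoc]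
  rfl

theorem pr_single {T : Finset ℕ} (q : T) (z : ℤ) :
    pr (Pi.single (some q) 1 : Option T → ZMod 2) z = ((padicValInt q z : ℕ) : ZMod 2) := by
  unfold pr
  rw [Finset.sum_eq_single (some q)]
  · rw [Pi.single_eq_same, one_mul]
    rfl
  · intro o _ ho
    rw [Pi.single_eq_of_ne ho, zero_mul]
  · intro h
    exact absurd (mem_univ _) h

theorem pv_zero {q : ℕ} {z : ℤ} (h : ¬ (q : ℤ) ∣ z) : padicValInt q z = 0 :=
  padicValInt.eq_zero_of_not_dvd h

theorem pv_one {q : ℕ} (hq : q.Prime) {z : ℤ} (h : (q : ℤ) ∣ z) (h2 : ¬ (q : ℤ) ^ 2 ∣ z) :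
    padicValInt q z = 1 := by
  have : Fact q.Prime := ⟨hq⟩
  have hz : z ≠ 0 := by
    rintro rfl
    exact h2 (dvd_zero _)
  have h3 : 1 ≤ padicValInt q z := by
    have h4 := (padicValInt_dvd_iff 1 z).1 (by rw [pow_one]; exact h)
    exact h4.resolve_left hz
  have h5 : ¬ 2 ≤ padicValInt q z := fun h4 => h2 ((padicValInt_dvd_iff 2 z).2 (Or.inr h4))
  omega

theorem exists_third {g : ℕ} (hg : 1 ≤ g) (a b : Fin (2 * g + 1)) :
    ∃ l : Fin (2 * g + 1), l ≠ a ∧ l ≠ b := by
  by_contra hcon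
  push Not at hcon
  have h1 : (univ : Finset (Fin (2 * g + 1))) ⊆ {a, b} := by
    intro l _
    rw [Finset.mem_insert, Finset.mem_singleton]
    by_cases h : l = a
    · exact Or.inl h
    · exact Or.inr (hcon l h)
  have h2 := Finset.card_le_card h1
  rw [card_univ, Fintype.card_fin] at h2
  have h3 := Finset.card_le_two (a := a) (b := b)
  omega

theorem t_ADJM : S_ADJM := by
  intro T hT h2 κ ℳ _ _ c p i w hw hs hirr hnice hgood hpw hsep 𝓛
  set A : Subalgebra (ZMod 2) (∀ x : κ × ℳ, Module.End (ZMod 2) (VV (2 * (c x.1).g + 1))) :=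
    Algebra.adjoin (ZMod 2) (Set.range fun φ : Option T → ZMod 2 =>
      (fun x => ((c x.1).mul (w x.2) (hw x.2) (hs x.2)).TT φ :
        ∀ x : κ × ℳ, Module.End (ZMod 2) (VV (2 * (c x.1).g + 1)))) with hA
  show A = ⊤
  have hgen : ∀ φ : Option T → ZMod 2, ∃ G : ∀ x : κ × ℳ, Module.End (ZMod 2) (VV (2 * (c x.1).g + 1)),
      G ∈ A ∧ ∀ x y, G x y = pr φ (w x.2) • y +
        ((c x.1).TT φ : Module.End (ZMod 2) (VV (2 * (c x.1).g + 1))) y := fun φ =>
    ⟨_, Algebra.subset_adjoin ⟨φ, rfl⟩, fun x y =>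
      TT_mul hT (c x.1) (w x.2) (hw x.2) (hs x.2) φ y⟩
  have hself : ∀ (n : ℕ) (v : VV n), v + v = 0 := fun n v =>
    Subtype.ext (funext fun l => z2_add_self _)
  -- the components of the algebra
  have hcomp : ∀ (x : κ × ℳ) (f : Module.End (ZMod 2) (VV (2 * (c x.1).g + 1))),
      ∃ G ∈ A, G x = f := by
    intro x f
    have h1 : A.map (Pi.evalAlgHom (ZMod 2)
        (fun x : κ × ℳ => Module.End (ZMod 2) (VV (2 * (c x.1).g + 1))) x) = ⊤ := by
      rw [eq_top_iff, ← hirr x.1]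
      refine Algebra.adjoin_le ?_
      rintro _ ⟨φ, rfl⟩
      obtain ⟨G, hG, hG2⟩ := hgen φ
      refine ⟨G + pr φ (w x.2) • 1, A.add_mem hG (A.smul_mem A.one_mem _), ?_⟩
      refine LinearMap.ext fun y => ?_
      show (G x + pr φ (w x.2) • (1 : Module.End (ZMod 2) (VV (2 * (c x.1).g + 1)))) y = _
      rw [LinearMap.add_apply, hG2, LinearMap.smul_apply, Module.End.one_apply, add_right_comm,
        hself, zero_add]
    have h3 : f ∈ A.map (Pi.evalAlgHom (ZMod 2)
        (fun x : κ × ℳ => Module.End (ZMod 2) (VV (2 * (c x.1).g + 1))) x) := by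
      rw [h1]
      exact Algebra.mem_top
    obtain ⟨G, hG, hG2⟩ := h3
    exact ⟨G, hG, hG2⟩
  -- the operator of a single prime
  have hop : ∀ q : T, ∃ G : ∀ x : κ × ℳ, Module.End (ZMod 2) (VV (2 * (c x.1).g + 1)),
      G ∈ A ∧ ∀ x y, G x y =
      ((padicValInt q (w x.2) : ℕ) : ZMod 2) • y + ∑ e : PR (2 * (c x.1).g + 1),
        ((padicValInt q (df (c x.1).a e) : ℕ) : ZMod 2) •
          rk (vv e.1.1 e.1.2) (vv e.1.1 e.1.2) y := by
    intro q
    refine ⟨_, Algebra.subset_adjoin ⟨Pi.single (some q) 1, rfl⟩, fun x y => ?_⟩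
    rw [← pr_single]
    exact TT_eq hT (c x.1) (w x.2) (hw x.2) (hs x.2) (Pi.single_eq_of_ne (by simp) _)
      (fun e => ((padicValInt q (df (c x.1).a e) : ℕ) : ZMod 2)) (fun e => pr_single q _) y
  have hgd : ∀ (q : T) (k : κ), (c k).Good q → ∀ e : PR (2 * (c k).g + 1),
      padicValInt q (df (c k).a e) = 0 := by
    intro q k hq e
    exact pv_zero (hq.2 e.1.1 e.1.2 (ne_of_lt e.2))
  -- the idempotents
  have hid : ∀ (m : ℳ) (S : Finset ℳ), m ∉ S → ∃ G ∈ A, (∀ x : κ × ℳ, x.2 = m → G x = 1) ∧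
      ∀ x : κ × ℳ, x.2 ∈ S → G x = 0 := by
    intro m S
    induction S using Finset.induction_on with
    | empty =>
      intro _
      exact ⟨1, A.one_mem, fun x _ => rfl, fun x hx => absurd hx (Finset.notMem_empty _)⟩
    | insert m' S _ ih =>
      intro hm
      rw [Finset.mem_insert, not_or] at hm
      obtain ⟨G, hG, hG1, hG2⟩ := ih hm.2
      obtain ⟨q, hq1, hq2⟩ := hsep m m' hm.1
      obtain ⟨H, hH, hH2⟩ := hop q
      have h3 : ∀ x, H x = ((padicValInt q (w x.2) : ℕ) : ZMod 2) •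
          (1 : Module.End (ZMod 2) (VV (2 * (c x.1).g + 1))) := by
        intro x
        refine LinearMap.ext fun y => ?_
        rw [hH2, Finset.sum_eq_zero, add_zero]
        · rfl
        · intro e _
          rw [hgd q x.1 (hq1 x.1), Nat.cast_zero, zero_smul]
      have h4 : ((padicValInt q (w m) : ℕ) : ZMod 2) + ((padicValInt q (w m') : ℕ) : ZMod 2) = 1 := by
        revert hq2
        generalize ((padicValInt q (w m) : ℕ) : ZMod 2) = a
        generalize ((padicValInt q (w m') : ℕ) : ZMod 2) = b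
        revert a b
        decide
      refine ⟨G * (H + (1 + ((padicValInt q (w m) : ℕ) : ZMod 2)) • 1),
        A.mul_mem hG (A.add_mem hH (A.smul_mem A.one_mem _)), ?_, ?_⟩
      · intro x hx
        rw [Pi.mul_apply, hG1 x hx, one_mul, Pi.add_apply, h3, Pi.smul_apply, Pi.one_apply,
          ← add_smul, hx]
        have h5 : ((padicValInt q (w m) : ℕ) : ZMod 2) +
            (1 + ((padicValInt q (w m) : ℕ) : ZMod 2)) = 1 := by
          rw [add_left_comm, z2_add_self, add_zero]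
        rw [h5, one_smul]
      · intro x hx
        rw [Finset.mem_insert] at hx
        rcases hx with hx | hx
        · rw [Pi.mul_apply, Pi.add_apply, h3, Pi.smul_apply, Pi.one_apply, ← add_smul, hx]
          have h5 : ((padicValInt q (w m') : ℕ) : ZMod 2) +
              (1 + ((padicValInt q (w m) : ℕ) : ZMod 2)) = 0 := by
            rw [add_left_comm, add_comm ((padicValInt q (w m') : ℕ) : ZMod 2), h4]
            decide
          rw [h5, zero_smul, mul_zero]
        · rw [Pi.mul_apply, hG2 x hx, zero_mul]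
  -- one rank one operator in each component
  have hone : ∀ x : κ × ℳ, (Pi.single x (rk (vv (i x.1).1.1 (i x.1).1.2) (vv (i x.1).1.1 (i x.1).1.2)) :
      ∀ x : κ × ℳ, Module.End (ZMod 2) (VV (2 * (c x.1).g + 1))) ∈ A := by
    intro x
    obtain ⟨G, hG, hG1, hG2⟩ := hid x.2 (univ.erase x.2) (Finset.notMem_erase _ _)
    obtain ⟨H, hH, hH2⟩ := hop (p x.1)
    have h3 : (Pi.single x (rk (vv (i x.1).1.1 (i x.1).1.2) (vv (i x.1).1.1 (i x.1).1.2)) :
        ∀ x : κ × ℳ, Module.End (ZMod 2) (VV (2 * (c x.1).g + 1))) = H * G := by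
      funext x'
      rw [Pi.mul_apply]
      by_cases h4 : x'.2 = x.2
      · rw [hG1 x' h4, mul_one]
        refine LinearMap.ext fun y => ?_
        rw [hH2, pv_zero (hpw x.1 x'.2), Nat.cast_zero, zero_smul, zero_add]
        by_cases h5 : x'.1 = x.1
        · have h6 : x' = x := Prod.ext h5 h4
          subst h6
          rw [Pi.single_eq_same, Finset.sum_eq_single (i x'.1)]
          · rw [pv_one (hT _ (p x'.1).2) (hnice x'.1).2.1 (hnice x'.1).2.2.1, Nat.cast_one, one_smul]
          · intro e _ he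
            rw [pv_zero ((hnice x'.1).2.2.2 e he), Nat.cast_zero, zero_smul]
          · intro h6
            exact absurd (mem_univ _) h6
        · rw [Pi.single_eq_of_ne (fun h6 => h5 (congrArg Prod.fst h6)), LinearMap.zero_apply,
            Finset.sum_eq_zero]
          intro e _
          rw [hgd (p x.1) x'.1 (hgood x'.1 x.1 h5), Nat.cast_zero, zero_smul]
      · rw [hG2 x' (Finset.mem_erase.2 ⟨h4, mem_univ _⟩), mul_zero,
          Pi.single_eq_of_ne (fun h6 => h4 (congrArg Prod.snd h6))]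
    rw [h3]
    exact A.mul_mem hH hG
  -- everything
  have h5 : ∀ (x : κ × ℳ) (f : Module.End (ZMod 2) (VV (2 * (c x.1).g + 1))),
      (Pi.single x f : ∀ x : κ × ℳ, Module.End (ZMod 2) (VV (2 * (c x.1).g + 1))) ∈ A := by
    intro x f
    refine all_mem ?_ ((Subalgebra.toSubmodule A).comap (LinearMap.single (ZMod 2)
      (fun x : κ × ℳ => Module.End (ZMod 2) (VV (2 * (c x.1).g + 1))) x)) ?_ ?_ f
    · push_cast
      have h5 : (2 : ZMod 2) = 0 := by decide
      rw [h5]
      ring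
    · intro f hf g hg
      have h6 := A.mul_mem hf hg
      rw [LinearMap.single_apply, LinearMap.single_apply, ← Pi.single_mul] at h6
      exact h6
    · intro a b hab
      obtain ⟨l, hl1, hl2⟩ := exists_third (c x.1).hg (i x.1).1.1 (i x.1).1.2
      obtain ⟨G, hG, hG1⟩ := hcomp x (rk (vv a b) (vv (i x.1).1.1 l))
      obtain ⟨H, hH, hH1⟩ := hcomp x (rk (vv (i x.1).1.1 l) (vv a b))
      have hne : (i x.1).1.1 ≠ (i x.1).1.2 := ne_of_lt (i x.1).2
      have h6 : (Pi.single x (rk (vv a b) (vv a b)) :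
          ∀ x : κ × ℳ, Module.End (ZMod 2) (VV (2 * (c x.1).g + 1))) =
          G * Pi.single x (rk (vv (i x.1).1.1 (i x.1).1.2) (vv (i x.1).1.1 (i x.1).1.2)) * H := by
        funext x'
        rw [Pi.mul_apply, Pi.mul_apply]
        by_cases h7 : x' = x
        · subst h7
          rw [Pi.single_eq_same, Pi.single_eq_same, hG1, hH1, rk_mul, om_vv, vv_apply, vv_apply,
            if_pos rfl, if_neg hne, if_neg hl1, if_neg hl2, add_zero, add_zero, add_zero, one_smul,
            rk_mul, om_vv, vv_apply, vv_apply, if_pos rfl, if_neg hl1.symm, if_neg hne.symm,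
            if_neg hl2.symm, add_zero, add_zero, add_zero, one_smul]
        · rw [Pi.single_eq_of_ne h7, Pi.single_eq_of_ne h7, mul_zero, zero_mul]
      show (Pi.single x (rk (vv a b) (vv a b)) :
          ∀ x : κ × ℳ, Module.End (ZMod 2) (VV (2 * (c x.1).g + 1))) ∈ A
      rw [h6]
      exact A.mul_mem (A.mul_mem hG (hone x)) hH
  refine eq_top_iff.2 fun F _ => ?_
  rw [← Finset.univ_sum_single F]
  exact A.sum_mem fun x _ => h5 x (F x)

end Q182.JQ.ADJM
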