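import Pool.Agent.Q182.JQ.ChtB
import Pool.Agent.Q182.JQ.ADJM
import Pool.Agent.Q24.JQ.LBLa
import Pool.Agent.Q44.BM.Rec
import Pool.Agent.Q261.JQ.ID
import Pool.Agent.Q261.JQ.PAR

/-!
# JQ-CHT: change of the set of primes
-/

set_option autoImplicit false
set_option linter.unusedVariables false
set_option linter.unusedSectionVars false

namespace Q182.JQ.CHT

open Finset Module Q44.JQ
open Pool.Agent.Y703.CQ (nr)
open Q44.BN (jv jv_prime jv_neg_one)
open Q44.TI (ch nr_ch)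
open Q44.BM (nr_rec vm)
open Pool.Agent.Q24.JQ (lbl_mul cop_mul ct_prime pr_mul pr_tv)
open scoped Classical

/-! ### Reindexing -/

theorem card_Sel_reindex {s V P P' : Type} [Fintype s] [AddCommGroup V] [Module (ZMod 2) V]
    [Fintype P] [Fintype P'] (D : Dj s V) (e : P ≃ P') (N : P' → P' → ZMod 2)
    (h : P' → s → ZMod 2) : Nat.card (Sel D N h) =
      Nat.card (Sel D (fun p q => N (e p) (e q)) (fun p => h (e p))) := by
  have key : ∀ x : (s → V) × (P' → V), x ∈ Sel D N h ↔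
      ((x.1, fun p => x.2 (e p)) : (s → V) × (P → V)) ∈
        Sel D (fun p q => N (e p) (e q)) (fun p => h (e p)) := by
    intro x
    unfold Sel
    rw [Submodule.mem_inf, Submodule.mem_inf, Submodule.mem_comap, Submodule.mem_comap,
      LinearMap.mem_ker, LinearMap.mem_ker]
    have h1 : clL (fun p => h (e p)) ((x.1, fun p => x.2 (e p)) : (s → V) × (P → V)) = clL h x := by
      refine Prod.ext rfl (funext fun t => ?_)
      exact e.sum_comp fun p => h p t • x.2 p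
    have h2 : ∀ p, rowL D (fun p q => N (e p) (e q)) (fun p => h (e p))
        ((x.1, fun p => x.2 (e p)) : (s → V) × (P → V)) p = rowL D N h x (e p) := by
      intro p
      show ∑ q, N (e p) (e q) • (x.2 (e q) + x.2 (e p)) + D.T (h (e p)) (x.2 (e p)) +
        ∑ t, h (e p) t • x.1 t = ∑ q, N (e p) q • (x.2 q + x.2 (e p)) + D.T (h (e p)) (x.2 (e p)) +
        ∑ t, h (e p) t • x.1 t
      congr 2
      exact e.sum_comp fun q => N (e p) q • (x.2 q + x.2 (e p))
    rw [h1]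
    refine and_congr_right fun _ => ⟨fun h3 => ?_, fun h3 => ?_⟩
    · funext p
      rw [h2, h3]
      rfl
    · funext p'
      have h4 := congrFun h3 (e.symm p')
      rw [h2, e.apply_symm_apply] at h4
      exact h4
  refine Nat.card_eq_of_bijective (fun x : Sel D N h =>
    (⟨_, (key x.1).1 x.2⟩ : Sel D (fun p q => N (e p) (e q)) (fun p => h (e p)))) ⟨?_, ?_⟩
  · intro x y hxy
    have h1 : ((x.1.1, fun p => x.1.2 (e p)) : (s → V) × (P → V)) =
        (y.1.1, fun p => y.1.2 (e p)) := congrArg Subtype.val hxy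
    have h3 : x.1.1 = y.1.1 := (Prod.mk.inj h1).1
    refine Subtype.ext (Prod.ext h3 (funext fun p' => ?_))
    have h2 := congrFun (Prod.mk.inj h1).2 (e.symm p')
    simp only [e.apply_symm_apply] at h2
    exact h2
  · rintro ⟨y, hy⟩
    have h1 : (((y.1, fun p' => y.2 (e.symm p')) : (s → V) × (P' → V)).1,
        fun p => ((y.1, fun p' => y.2 (e.symm p')) : (s → V) × (P' → V)).2 (e p)) = y := by
      refine Prod.ext rfl (funext fun p => ?_)
      show y.2 (e.symm (e p)) = y.2 p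
      rw [e.symm_apply_apply]
    exact ⟨⟨(y.1, fun p' => y.2 (e.symm p')), (key _).2 (by rw [h1]; exact hy)⟩,
      Subtype.ext h1⟩

/-! ### The indices -/

theorem exists_E {T T' M : Finset ℕ} (h : T ⊆ T') (hM : M ⊆ T' \ T) :
    ∃ E : Option T ⊕ (M ⊕ {t : T' // (t : ℕ) ∉ T ∧ (t : ℕ) ∉ M}) ≃ Option T',
      (∀ o, io E o = inT h o) ∧ ∀ q : M, im E q = some ⟨q, (mem_sdiff.1 (hM q.2)).1⟩ := by
  let f : Option T ⊕ (M ⊕ {t : T' // (t : ℕ) ∉ T ∧ (t : ℕ) ∉ M}) → Option T' :=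
    Sum.elim (inT h) (Sum.elim (fun q => some ⟨q, (mem_sdiff.1 (hM q.2)).1⟩) fun r => some r.1)
  have key : ∀ a b : T', some a = some b → (a : ℕ) = b := fun a b hab =>
    congrArg Subtype.val (Option.some.inj hab)
  have hf : Function.Bijective f := by
    constructor
    · rintro ((_ | t) | q | r) ((_ | t') | q' | r') hfe
      · rfl
      · exact absurd hfe (by simp [f, inT])
      · exact absurd hfe (by simp [f, inT])
      · exact absurd hfe (by simp [f, inT])
      · exact absurd hfe (by simp [f, inT])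
      · have h1 : (t : ℕ) = t' := key ⟨t, h t.2⟩ ⟨t', h t'.2⟩ hfe
        rw [Subtype.ext h1]
      · have h1 : (t : ℕ) = q' := congrArg Subtype.val (Option.some.inj hfe)
        exact absurd (h1 ▸ t.2) (mem_sdiff.1 (hM q'.2)).2
      · have h1 : (t : ℕ) = r'.1 := congrArg Subtype.val (Option.some.inj hfe)
        exact absurd (h1 ▸ t.2) r'.2.1
      · exact absurd hfe (by simp [f, inT])
      · have h1 : (q : ℕ) = t' := congrArg Subtype.val (Option.some.inj hfe)
        exact absurd (h1 ▸ t'.2) (mem_sdiff.1 (hM q.2)).2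
      · have h1 : (q : ℕ) = q' := key ⟨q, (mem_sdiff.1 (hM q.2)).1⟩
          ⟨q', (mem_sdiff.1 (hM q'.2)).1⟩ hfe
        rw [Subtype.ext h1]
      · have h1 : (q : ℕ) = r'.1 := congrArg Subtype.val (Option.some.inj hfe)
        exact absurd (h1 ▸ q.2) r'.2.2
      · exact absurd hfe (by simp [f, inT])
      · have h1 : (r.1 : ℕ) = t' := congrArg Subtype.val (Option.some.inj hfe)
        exact absurd (h1 ▸ t'.2) r.2.1
      · have h1 : (r.1 : ℕ) = q' := congrArg Subtype.val (Option.some.inj hfe)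
        exact absurd (h1 ▸ q'.2) r.2.2
      · have h1 : r.1 = r'.1 := Option.some.inj hfe
        rw [Subtype.ext h1]
    · rintro (_ | t)
      · exact ⟨Sum.inl none, rfl⟩
      · by_cases h1 : (t : ℕ) ∈ T
        · exact ⟨Sum.inl (some ⟨t, h1⟩), rfl⟩
        · by_cases h2 : (t : ℕ) ∈ M
          · exact ⟨Sum.inr (Sum.inl ⟨t, h2⟩), rfl⟩
          · exact ⟨Sum.inr (Sum.inr ⟨t, h1, h2⟩), rfl⟩
  exact ⟨Equiv.ofBijective f hf, fun o => rfl, fun q => rfl⟩

/-- the union of disjoint sets of primes -/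
theorem exists_eS {S M : Finset ℕ} (h : ∀ p ∈ S, p ∉ M) :
    ∃ e : S ⊕ M ≃ ↥(S ∪ M), (∀ p : S, ((e (Sum.inl p) : ↥(S ∪ M)) : ℕ) = p) ∧
      ∀ q : M, ((e (Sum.inr q) : ↥(S ∪ M)) : ℕ) = q := by
  let f : S ⊕ M → ↥(S ∪ M) := Sum.elim (fun p => ⟨p, mem_union_left _ p.2⟩)
    (fun q => ⟨q, mem_union_right _ q.2⟩)
  have key : ∀ a b, f a = f b → ((f a : ↥(S ∪ M)) : ℕ) = f b := fun a b hab =>
    congrArg Subtype.val hab
  have hf : Function.Bijective f := by
    constructor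
    · rintro (p | q) (p' | q') hfe
      · have h1 : (p : ℕ) = p' := key _ _ hfe
        rw [Subtype.ext h1]
      · have h1 : (p : ℕ) = q' := congrArg Subtype.val hfe
        exact absurd (h1 ▸ q'.2) (h p p.2)
      · have h1 : (q : ℕ) = p' := congrArg Subtype.val hfe
        exact absurd (h1 ▸ q.2) (h p' p'.2)
      · have h1 : (q : ℕ) = q' := key _ _ hfe
        rw [Subtype.ext h1]
    · rintro ⟨x, hx⟩
      rcases mem_union.1 hx with h1 | h1
      · exact ⟨Sum.inl ⟨x, h1⟩, rfl⟩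
      · exact ⟨Sum.inr ⟨x, h1⟩, rfl⟩
  exact ⟨Equiv.ofBijective f hf, fun o => rfl, fun q => rfl⟩

/-! ### The operators -/

section curve

variable {T T' : Finset ℕ} (h : T ⊆ T') (hT' : ∀ p ∈ T', p.Prime) (c : Cr T)

include hT'

theorem pr_ex (φ : Option T' → ZMod 2) {z : ℤ} (hz : ∀ p : ℕ, p.Prime → (p : ℤ) ∣ z → p ∈ T) :
    pr φ z = pr (fun o => φ (inT h o)) z := by
  unfold pr
  rw [Fintype.sum_option, Fintype.sum_option]
  refine congrArg₂ (· + ·) rfl ?_
  have h1 : ∀ t : T', (t : ℕ) ∉ T → φ (some t) * ct z (some t) = 0 := by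
    intro t ht
    have h2 : (ct z : Option T' → ZMod 2) (some t) = 0 := by
      show ((padicValInt t z : ℕ) : ZMod 2) = 0
      rw [padicValInt.eq_zero_of_not_dvd fun hd => ht (hz t (hT' t t.2) hd)]
      rfl
    rw [h2, mul_zero]
  have h2 : ∑ t : T', φ (some t) * ct z (some t) =
      ∑ t ∈ univ.filter (fun t : T' => (t : ℕ) ∈ T), φ (some t) * ct z (some t) := by
    symm
    refine Finset.sum_subset (filter_subset _ _) fun t _ ht => h1 t fun h3 => ht ?_
    rw [mem_filter]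
    exact ⟨mem_univ _, h3⟩
  rw [h2]
  symm
  refine Finset.sum_bij (fun (t : T) _ => (⟨t, h t.2⟩ : T')) ?_ ?_ ?_ ?_
  · intro t _
    rw [mem_filter]
    exact ⟨mem_univ _, t.2⟩
  · intro t _ t' _ h3
    exact Subtype.ext (Subtype.mk.inj h3)
  · intro t ht
    rw [mem_filter] at ht
    exact ⟨⟨t, ht.2⟩, mem_univ _, rfl⟩
  · intro t _
    rfl

theorem TT_ex (φ : Option T' → ZMod 2) (x : VV (2 * c.g + 1)) :
    (((c.ex h).TT φ : Module.End (ZMod 2) (VV (2 * c.g + 1))) x) =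
      (c.TT (fun o => φ (inT h o)) : Module.End (ZMod 2) (VV (2 * c.g + 1))) x := by
  refine Subtype.ext (funext fun (i : Fin (2 * c.g + 1)) => ?_)
  show ∑ j ∈ univ.erase i, pr φ (c.a i - c.a j) * (x.1 i + x.1 j) + φ none * x.1 i =
    ∑ j ∈ univ.erase i, pr (fun o => φ (inT h o)) (c.a i - c.a j) * (x.1 i + x.1 j) +
      φ none * x.1 i
  congr 1
  refine sum_congr rfl fun j hj => ?_
  rw [pr_ex h hT' φ (c.supp i j (ne_of_mem_erase hj).symm)]

theorem pr_prod {M : Finset ℕ} (hM : M ⊆ T') (φ : Option T' → ZMod 2) :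
    pr φ (∏ q ∈ M, (q : ℤ)) = ∑ q : M, φ (some ⟨q, hM q.2⟩) := by
  have h1 : ∀ M₀ : Finset ℕ, M₀ ⊆ T' → pr φ (∏ q ∈ M₀, (q : ℤ)) =
      ∑ q ∈ M₀, if hq : q ∈ T' then φ (some ⟨q, hq⟩) else 0 := by
    intro M₀
    induction M₀ using Finset.induction_on with
    | empty =>
      intro _
      rw [prod_empty, sum_empty]
      unfold pr
      refine Finset.sum_eq_zero fun o _ => ?_
      rw [Pool.Agent.Q24.JQ.ct_one]
      exact mul_zero _
    | insert a s ha ih =>
      intro hs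
      have haT := hs (mem_insert_self _ _)
      rw [prod_insert ha, sum_insert ha, pr_mul hT', ih fun q hq => hs (mem_insert_of_mem hq),
        dif_pos haT]
      · congr 1
        exact pr_tv hT' φ (some ⟨a, haT⟩)
      · exact_mod_cast (hT' a haT).ne_zero
      · refine Finset.prod_ne_zero_iff.2 fun q hq => ?_
        exact_mod_cast (hT' q (hs (mem_insert_of_mem hq))).ne_zero
  rw [h1 M hM, ← Finset.sum_coe_sort M]
  refine sum_congr rfl fun q _ => ?_
  rw [dif_pos (hM q.2)]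

end curve

/-! ### Labels -/

theorem lbl_none' {T : Finset ℕ} (h2 : 2 ∈ T) {p : ℕ} (hp : p.Prime) (hpT : p ∉ T) :
    lbl T p none = vm p :=
  jv_neg_one hp fun h => hpT (h ▸ h2)

theorem lbl_some {T : Finset ℕ} (hT : ∀ p ∈ T, p.Prime) {p : ℕ} (hp : p.Prime) (hpT : p ∉ T)
    (q : T) : lbl T p (some q) = nr p q := by
  rw [nr_ch]
  show jv ((q : ℕ) : ℤ) p = ch ((q : ℕ) : ZMod p)
  have h1 : (((q : ℕ) : ℤ) : ZMod p) ≠ 0 := by
    rw [Int.cast_natCast, Ne, ZMod.natCast_eq_zero_iff]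
    intro h
    exact hpT (((Nat.prime_dvd_prime_iff_eq hp (hT q q.2)).1 h) ▸ q.2)
  rw [jv_prime hp h1, Int.cast_natCast]

theorem lbl_inT {T T' : Finset ℕ} (h : T ⊆ T') (n : ℕ) (o : Option T) :
    lbl T' n (inT h o) = lbl T n o := by
  cases o <;> rfl

theorem lbl_prod {T : Finset ℕ} (hT : ∀ p ∈ T, p.Prime) (h2 : 2 ∈ T) (M : Finset ℕ)
    (hM : ∀ q ∈ M, q.Prime ∧ q ∉ T) : lbl T (∏ q ∈ M, q) = ∑ q ∈ M, lbl T q := by
  have h1 : ∀ M₀ : Finset ℕ, (∀ q ∈ M₀, q.Prime ∧ q ∉ T) →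
      Cop T (∏ q ∈ M₀, q) ∧ lbl T (∏ q ∈ M₀, q) = ∑ q ∈ M₀, lbl T q := by
    intro M₀
    induction M₀ using Finset.induction_on with
    | empty =>
      intro _
      refine ⟨fun p hp h => ?_, ?_⟩
      · rw [prod_empty] at h
        exact (hT p hp).one_lt.ne' (Nat.dvd_one.1 h)
      · rw [prod_empty, sum_empty]
        funext o
        exact Q44.BN.jv_one _
    | insert a s ha ih =>
      intro hs
      obtain ⟨h3, h4⟩ := ih fun q hq => hs q (mem_insert_of_mem hq)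
      have h5 := hs a (mem_insert_self _ _)
      have h6 : Cop T a := by
        intro p hp h
        exact h5.2 (((Nat.prime_dvd_prime_iff_eq (hT p hp) h5.1).1 h) ▸ hp)
      rw [prod_insert ha, sum_insert ha]
      refine ⟨cop_mul hT h6 h3, ?_⟩
      rw [lbl_mul hT h2 h6 h3, h4]
  exact (h1 M hM).2

theorem t_CHT : S_CHT := by
  intro T T' h hT' h2 M hMT hm hs c ρ' 𝓛 hOk
  have hT : ∀ p ∈ T, p.Prime := fun p hp => hT' p (h hp)
  have hMT' : M ⊆ T' := fun q hq => (mem_sdiff.1 (hMT hq)).1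
  have hMn : ∀ q ∈ M, q.Prime ∧ q ∉ T := fun q hq =>
    ⟨hT' q (hMT' hq), (mem_sdiff.1 (hMT hq)).2⟩
  obtain ⟨E, hE1, hE2⟩ := exists_E h hMT
  have hfin : Finite c.V := inferInstance
  set D : Dj (Option T) c.V := c.dj 𝓛 with hD
  have hOk' : D.Ok fun o => ρ' (io E o) + ∑ q : M, lbl T q o := by
    have h1 : (fun o => ρ' (io E o) + ∑ q : M, lbl T q o) = rs h ρ' + lbl T (∏ q ∈ M, q) := by
      funext o
      rw [hE1, lbl_prod hT h2 M hMn, Pi.add_apply, Finset.sum_apply, ← Finset.sum_coe_sort M]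
      rfl
    rw [h1]
    exact hOk
  have hR : ∀ q q' : M, q ≠ q' → nr q' q = nr q q' + lbl T q none * lbl T q' none := by
    intro q q' hne
    obtain ⟨h3, h4⟩ := hMn q q.2
    obtain ⟨h5, h6⟩ := hMn q' q'.2
    rw [lbl_none' h2 h3 h4, lbl_none' h2 h5 h6, mul_comm]
    exact nr_rec h5 (fun h7 => h6 (h7 ▸ h2)) h3 (fun h7 => h4 (h7 ▸ h2))
      fun h7 => hne (Subtype.ext h7.symm)
  set 𝓛' : Submodule (ZMod 2) ((Option T' → c.V) × (Option T' → c.V)) :=
    LL E D (fun q : M => lbl T q) (fun q q' : M => nr q q') ρ' with h𝓛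
  set D' : Dj (Option T') c.V := ((c.ex h).mul (∏ q ∈ M, (q : ℤ)) hm hs).dj 𝓛' with hD'
  have hC : Cmp (M := M) E D D' := by
    refine ⟨rfl, fun φ x => ?_, ?_⟩
    · have h3 := ADJM.TT_mul hT' (c.ex h) (∏ q ∈ M, (q : ℤ)) hm hs φ x
      have h4 := TT_ex h hT' c φ x
      have h5 := pr_prod hT' hMT' φ
      have h6 : D'.T φ x = pr φ (∏ q ∈ M, (q : ℤ)) • x +
          (c.TT (fun o => φ (inT h o)) : Module.End (ZMod 2) (VV (2 * c.g + 1))) x := by
        rw [← h4]
        exact h3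
      rw [h6, h5, add_comm]
      refine congrArg₂ (· + ·) ?_ ?_
      · have h7 : (fun o => φ (io E o)) = fun o => φ (inT h o) := funext fun o => by rw [hE1]
        rw [h7]
        rfl
      · congr 1
        exact sum_congr rfl fun q _ => by rw [hE2]
    · rw [hE1]
      rfl
  refine ⟨𝓛', ?_, ?_, ?_⟩
  · exact ok_LL E (fun q : M => lbl T q) (fun q q' : M => nr q q') ρ' hC Pool.Agent.Q261.JQ.t_ID
      hfin hOk' hR rfl
  · exact par_LL E (fun q : M => lbl T q) (fun q q' : M => nr q q') ρ' hC Pool.Agent.Q261.JQ.t_ID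
      (Pool.Agent.Q261.JQ.t_PAR Pool.Agent.Q261.JQ.t_ID) hfin hOk' hR rfl
  · intro S hS hρ
    have hρ' : ∑ p : S, lbl T' (p : ℕ) = ρ' := by
      rw [← hρ, ← Finset.sum_coe_sort S]
    have h3 := card_Sel E (fun q : M => lbl T q) (fun q q' : M => nr q q') ρ' hC rfl
      (fun p q : S => nr p q) (fun p : S => lbl T' p) hρ'
    refine Eq.trans ?_ h3
    obtain ⟨e, he1, he2⟩ := exists_eS (S := S) (M := M) fun p hp hq => (hS p hp).2 (hMT' hq)
    rw [card_Sel_reindex D e]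
    have h4 : (fun p => lbl T ((e p : ↥(S ∪ M)) : ℕ)) =
        hh E (fun q : M => lbl T q) (fun p : S => lbl T' p) := by
      funext p o
      rcases p with p | q
      · show lbl T ((e (Sum.inl p) : ↥(S ∪ M)) : ℕ) o = lbl T' p (io E o)
        rw [he1, hE1, lbl_inT]
      · show lbl T ((e (Sum.inr q) : ↥(S ∪ M)) : ℕ) o = lbl T q o
        rw [he2]
    have h5 : (fun p q => nr ((e p : ↥(S ∪ M)) : ℕ) ((e q : ↥(S ∪ M)) : ℕ)) =
        NN E D (fun q : M => lbl T q) (fun q q' : M => nr q q') (fun p q : S => nr p q)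
          (fun p : S => lbl T' p) := by
      funext p q
      rcases p with p | q₁
      · rcases q with p' | q₂
        · show nr ((e (Sum.inl p) : ↥(S ∪ M)) : ℕ) ((e (Sum.inl p') : ↥(S ∪ M)) : ℕ) = nr p p'
          rw [he1, he1]
        · show nr ((e (Sum.inl p) : ↥(S ∪ M)) : ℕ) ((e (Sum.inr q₂) : ↥(S ∪ M)) : ℕ) =
            lbl T' p (im E q₂)
          rw [he1, he2, hE2, lbl_some hT' (hS p p.2).1 (hS p p.2).2]
      · rcases q with p' | q₂
        · show nr ((e (Sum.inr q₁) : ↥(S ∪ M)) : ℕ) ((e (Sum.inl p') : ↥(S ∪ M)) : ℕ) =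
            lbl T' p' (im E q₁) + lbl T q₁ none * lbl T' p' (io E none)
          obtain ⟨h6, h7⟩ := hMn q₁ q₁.2
          obtain ⟨h8, h9⟩ := hS p' p'.2
          have h10 : (p' : ℕ) ∉ T := fun h11 => h9 (h h11)
          rw [he1, he2, hE2, hE1, lbl_some hT' h8 h9, lbl_inT, lbl_none' h2 h6 h7,
            lbl_none' h2 h8 h10]
          exact nr_rec h6 (fun h11 => h7 (h11 ▸ h2)) h8 (fun h11 => h10 (h11 ▸ h2))
            fun h11 => h9 (h11 ▸ hMT' q₁.2)
        · show nr ((e (Sum.inr q₁) : ↥(S ∪ M)) : ℕ) ((e (Sum.inr q₂) : ↥(S ∪ M)) : ℕ) = nr q₁ q₂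
          rw [he2, he2]
    rw [h4, h5]

end Q182.JQ.CHT
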