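import Pool.Agent.Q44.JQ.StmF
import Pool.Agent.Q261.JQ.ID
import Pool.Agent.Q261.JQ.PAR

/-!
# JQ-CHT: change of the set of primes, linear algebra
-/

set_option autoImplicit false
set_option linter.unusedVariables false

namespace Q182.JQ.CHT

open Finset Module Q44.JQ
open scoped Classical

theorem z2_add_self (a : ZMod 2) : a + a = 0 := by
  revert a; decide

section abs

variable {s M R s' V : Type} [Fintype s] [Fintype M] [Fintype R] [Fintype s'] [AddCommGroup V]
  [Module (ZMod 2) V]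

theorem v2 (x : V) : x + x = 0 := by
  have h : ((1 : ZMod 2) + 1) • x = 0 := by
    have h1 : (1 : ZMod 2) + 1 = 0 := by decide
    rw [h1, zero_smul]
  rw [add_smul, one_smul] at h
  exact h

variable (E : s ⊕ (M ⊕ R) ≃ s')

/-- old index -/
def io (o : s) : s' := E (Sum.inl o)
/-- index of `M` -/
def im (q : M) : s' := E (Sum.inr (Sum.inl q))
/-- remaining index -/
def ir (r : R) : s' := E (Sum.inr (Sum.inr r))

theorem sum_split {A : Type} [AddCommMonoid A] (f : s' → A) :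
    ∑ t, f t = ∑ o, f (io E o) + (∑ q, f (im E q) + ∑ r, f (ir E r)) := by
  rw [← E.sum_comp, Fintype.sum_sum_type, Fintype.sum_sum_type]
  rfl

/-- a function with given values -/
def mk {A : Type} (f : s → A) (x : M → A) (w : R → A) : s' → A :=
  fun t => Sum.elim f (Sum.elim x w) (E.symm t)

theorem mk_io {A : Type} (f : s → A) (x : M → A) (w : R → A) (o : s) : mk E f x w (io E o) = f o := by
  unfold mk io
  rw [E.symm_apply_apply]
  rfl

theorem mk_im {A : Type} (f : s → A) (x : M → A) (w : R → A) (q : M) : mk E f x w (im E q) = x q := by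
  unfold mk im
  rw [E.symm_apply_apply]
  rfl

theorem mk_ir {A : Type} (f : s → A) (x : M → A) (w : R → A) (r : R) : mk E f x w (ir E r) = w r := by
  unfold mk ir
  rw [E.symm_apply_apply]
  rfl

theorem ext_split {A : Type} {f g : s' → A} (h1 : ∀ o, f (io E o) = g (io E o))
    (h2 : ∀ q, f (im E q) = g (im E q)) (h3 : ∀ r, f (ir E r) = g (ir E r)) : f = g := by
  funext t
  obtain ⟨u, rfl⟩ := E.surjective t
  rcases u with o | q | r
  · exact h1 o
  · exact h2 q
  · exact h3 r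

variable (D : Dj s V) (hM : M → s → ZMod 2) (NM : M → M → ZMod 2) (ρ' : s' → ZMod 2)

/-- the class of the old system -/
noncomputable def psm : ((s' → V) × (s' → V)) →ₗ[ZMod 2] ((s → V) × (s → V)) where
  toFun y := (fun o => y.1 (io E o), fun o => y.2 (io E o) + ∑ q, hM q o • y.1 (im E q))
  map_add' y z := by
    refine Prod.ext rfl ?_
    funext o
    simp only [Prod.fst_add, Prod.snd_add, Pi.add_apply, smul_add, sum_add_distrib]
    abel
  map_smul' c y := by
    refine Prod.ext rfl ?_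
    funext o
    simp only [Prod.smul_fst, Prod.smul_snd, Pi.smul_apply, RingHom.id_apply, smul_add, smul_sum,
      smul_comm c]

/-- the rows of `M` -/
noncomputable def rsm : ((s' → V) × (s' → V)) →ₗ[ZMod 2] (M → V) where
  toFun y q := y.2 (im E q) + hM q D.s₀ • y.2 (io E D.s₀) +
    (ρ' (im E q) + hM q D.s₀ * ρ' (io E D.s₀)) • y.1 (im E q) +
    ∑ q', NM q q' • (y.1 (im E q') + y.1 (im E q)) + D.T (hM q) (y.1 (im E q)) +
    ∑ o, hM q o • y.1 (io E o)
  map_add' y z := by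
    funext q
    simp only [Prod.fst_add, Prod.snd_add, Pi.add_apply, smul_add, sum_add_distrib, map_add]
    abel
  map_smul' c y := by
    funext q
    simp only [Prod.smul_fst, Prod.smul_snd, Pi.smul_apply, RingHom.id_apply, smul_add, smul_sum,
      smul_comm c, map_smul]

/-- the remaining components of the first part -/
def zsm : ((s' → V) × (s' → V)) →ₗ[ZMod 2] (R → V) where
  toFun y r := y.1 (ir E r)
  map_add' y z := rfl
  map_smul' c y := rfl

/-- the new subspace -/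
noncomputable def LL : Submodule (ZMod 2) ((s' → V) × (s' → V)) :=
  D.𝓛.comap (psm E hM) ⊓ LinearMap.ker (rsm E D hM NM ρ') ⊓ LinearMap.ker (zsm E)

theorem mem_LL {y : (s' → V) × (s' → V)} : y ∈ LL E D hM NM ρ' ↔ psm E hM y ∈ D.𝓛 ∧
    (∀ q, rsm E D hM NM ρ' y q = 0) ∧ ∀ r, y.1 (ir E r) = 0 := by
  unfold LL
  rw [Submodule.mem_inf, Submodule.mem_inf, Submodule.mem_comap, LinearMap.mem_ker,
    LinearMap.mem_ker, and_assoc]
  refine and_congr_right fun _ => and_congr ?_ ?_
  · exact ⟨fun h q => congrFun h q, fun h => funext h⟩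
  · exact ⟨fun h q => congrFun h q, fun h => funext h⟩

variable {P : Type} [Fintype P]

/-- the symbols of the old system -/
def NN (N' : P → P → ZMod 2) (h' : P → s' → ZMod 2) : P ⊕ M → P ⊕ M → ZMod 2
  | .inl p, .inl p' => N' p p'
  | .inl p, .inr q => h' p (im E q)
  | .inr q, .inl p => h' p (im E q) + hM q D.s₀ * h' p (io E D.s₀)
  | .inr q, .inr q' => NM q q'

/-- the labels of the old system -/
def hh (h' : P → s' → ZMod 2) : P ⊕ M → s → ZMod 2 := Sum.elim (fun p o => h' p (io E o)) hM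

/-- the comparison -/
def gg (e : (s' → V) × (P → V)) : (s → V) × (P ⊕ M → V) :=
  (fun o => e.1 (io E o), Sum.elim e.2 fun q => e.1 (im E q))

theorem cl_gg (h' : P → s' → ZMod 2) (e : (s' → V) × (P → V)) :
    clL (hh E hM h') (gg E e) = psm E hM (clL h' e) := by
  refine Prod.ext rfl ?_
  funext o
  show ∑ p, hh E hM h' p o • (gg E e).2 p = (∑ p, h' p (io E o) • e.2 p) + ∑ q, hM q o • e.1 (im E q)
  rw [Fintype.sum_sum_type]
  rfl

structure Cmp (D' : Dj s' V) : Prop where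
  w : D'.ω = D.ω
  t : ∀ φ x, D'.T φ x = D.T (fun o => φ (io E o)) x + (∑ q : M, φ (im E q)) • x
  s : D'.s₀ = io E D.s₀

variable {D} {D' : Dj s' V} (hD : Cmp (M := M) E D D')

include hD

theorem row_inl (N' : P → P → ZMod 2) (h' : P → s' → ZMod 2) (e : (s' → V) × (P → V))
    (hz : ∀ r, e.1 (ir E r) = 0) (p : P) :
    rowL D (NN E D hM NM N' h') (hh E hM h') (gg E e) (Sum.inl p) = rowL D' N' h' e p := by
  show ∑ p', NN E D hM NM N' h' (Sum.inl p) p' • ((gg E e).2 p' + (gg E e).2 (Sum.inl p)) +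
    D.T (hh E hM h' (Sum.inl p)) ((gg E e).2 (Sum.inl p)) +
    ∑ o, hh E hM h' (Sum.inl p) o • (gg E e).1 o =
    ∑ p', N' p p' • (e.2 p' + e.2 p) + D'.T (h' p) (e.2 p) + ∑ t, h' p t • e.1 t
  rw [hD.t, sum_split E fun t => h' p t • e.1 t, Fintype.sum_sum_type]
  have h1 : ∑ r, h' p (ir E r) • e.1 (ir E r) = 0 :=
    Finset.sum_eq_zero fun r _ => by rw [hz, smul_zero]
  have h2 : ∑ q : M, NN E D hM NM N' h' (Sum.inl p) (Sum.inr q) •
      ((gg E e).2 (Sum.inr q) + (gg E e).2 (Sum.inl p)) =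
      ∑ q : M, h' p (im E q) • e.1 (im E q) + (∑ q : M, h' p (im E q)) • e.2 p := by
    rw [sum_smul, ← sum_add_distrib]
    refine sum_congr rfl fun q _ => ?_
    exact smul_add _ _ _
  rw [h1, h2, add_zero]
  show ∑ p', N' p p' • (e.2 p' + e.2 p) + (∑ q : M, h' p (im E q) • e.1 (im E q) +
    (∑ q : M, h' p (im E q)) • e.2 p) + D.T (fun o => h' p (io E o)) (e.2 p) +
    ∑ o, h' p (io E o) • e.1 (io E o) = _
  abel

omit hD in
theorem row_inr (N' : P → P → ZMod 2) (h' : P → s' → ZMod 2) (hρ : ∑ p, h' p = ρ')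
    (e : (s' → V) × (P → V)) (q : M) :
    rowL D (NN E D hM NM N' h') (hh E hM h') (gg E e) (Sum.inr q) =
      rsm E D hM NM ρ' (clL h' e) q := by
  show ∑ p', NN E D hM NM N' h' (Sum.inr q) p' • ((gg E e).2 p' + (gg E e).2 (Sum.inr q)) +
    D.T (hM q) (e.1 (im E q)) + ∑ o, hM q o • e.1 (io E o) =
    (∑ p, h' p (im E q) • e.2 p) + hM q D.s₀ • (∑ p, h' p (io E D.s₀) • e.2 p) +
    (ρ' (im E q) + hM q D.s₀ * ρ' (io E D.s₀)) • e.1 (im E q) +
    ∑ q', NM q q' • (e.1 (im E q') + e.1 (im E q)) + D.T (hM q) (e.1 (im E q)) +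
    ∑ o, hM q o • e.1 (io E o)
  congr 2
  rw [Fintype.sum_sum_type, ← hρ]
  congr 1
  rw [Finset.sum_apply, Finset.sum_apply, mul_sum, ← sum_add_distrib, sum_smul, smul_sum,
    ← sum_add_distrib, ← sum_add_distrib]
  refine sum_congr rfl fun p _ => ?_
  show (h' p (im E q) + hM q D.s₀ * h' p (io E D.s₀)) • (e.2 p + e.1 (im E q)) = _
  rw [smul_add, add_smul _ _ (e.2 p), mul_smul]

/-- the comparison of the solutions -/
theorem mem_iff (hL : D'.𝓛 = LL E D hM NM ρ') (N' : P → P → ZMod 2) (h' : P → s' → ZMod 2)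
    (hρ : ∑ p, h' p = ρ') (e : (s' → V) × (P → V)) :
    e ∈ Sel D' N' h' ↔ gg E e ∈ Sel D (NN E D hM NM N' h') (hh E hM h') ∧
      ∀ r, e.1 (ir E r) = 0 := by
  unfold Sel
  rw [Submodule.mem_inf, Submodule.mem_inf, Submodule.mem_comap, Submodule.mem_comap,
    LinearMap.mem_ker, LinearMap.mem_ker, hL, mem_LL, cl_gg]
  constructor
  · rintro ⟨⟨h1, h2, h3⟩, h4⟩
    have h3' : ∀ r, e.1 (ir E r) = 0 := h3
    refine ⟨⟨h1, ?_⟩, h3'⟩
    funext p
    rcases p with p | q
    · rw [row_inl E hM NM hD N' h' e h3']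
      exact congrFun h4 p
    · rw [row_inr E hM NM ρ' N' h' hρ]
      exact h2 q
  · rintro ⟨⟨h1, h2⟩, h3⟩
    refine ⟨⟨h1, ?_, h3⟩, ?_⟩
    · intro q
      rw [← row_inr E hM NM ρ' N' h' hρ]
      exact congrFun h2 (Sum.inr q)
    · funext p
      rw [← row_inl E hM NM hD N' h' e h3]
      exact congrFun h2 (Sum.inl p)

theorem card_Sel (hL : D'.𝓛 = LL E D hM NM ρ') (N' : P → P → ZMod 2) (h' : P → s' → ZMod 2)
    (hρ : ∑ p, h' p = ρ') :
    Nat.card (Sel D (NN E D hM NM N' h') (hh E hM h')) = Nat.card (Sel D' N' h') := by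
  symm
  refine Nat.card_eq_of_bijective (fun e : Sel D' N' h' => (⟨gg E e.1,
    ((mem_iff E hM NM ρ' hD hL N' h' hρ e.1).1 e.2).1⟩ :
      Sel D (NN E D hM NM N' h') (hh E hM h'))) ⟨?_, ?_⟩
  · intro e e' h
    have h1 : gg E e.1 = gg E e'.1 := congrArg Subtype.val h
    have h2 := ((mem_iff E hM NM ρ' hD hL N' h' hρ e.1).1 e.2).2
    have h3 := ((mem_iff E hM NM ρ' hD hL N' h' hρ e'.1).1 e'.2).2
    refine Subtype.ext (Prod.ext (ext_split E ?_ ?_ ?_) ?_)
    · intro o
      exact congrFun (congrArg Prod.fst h1) o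
    · intro q
      exact congrFun (congrArg Prod.snd h1) (Sum.inr q)
    · intro r
      rw [h2, h3]
    · funext p
      exact congrFun (congrArg Prod.snd h1) (Sum.inl p)
  · rintro ⟨f, hf⟩
    let e : (s' → V) × (P → V) := (mk E f.1 (fun q => f.2 (Sum.inr q)) (fun _ => 0),
      fun p => f.2 (Sum.inl p))
    have h1 : gg E e = f := by
      refine Prod.ext (funext fun o => mk_io E _ _ _ o) (funext fun p => ?_)
      rcases p with p | q
      · rfl
      · exact mk_im E _ _ _ q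
    have h2 : ∀ r, e.1 (ir E r) = 0 := fun r => mk_ir E _ _ _ r
    have h3 : e ∈ Sel D' N' h' := by
      rw [mem_iff E hM NM ρ' hD hL N' h' hρ, h1]
      exact ⟨hf, h2⟩
    exact ⟨⟨e, h3⟩, Subtype.ext h1⟩

end abs

end Q182.JQ.CHT
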