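import Pool.Agent.Q182.JQ.ChtA

/-!
# JQ-CHT: change of the set of primes, linear algebra, second part
-/

set_option autoImplicit false
set_option linter.unusedVariables false
set_option linter.unusedSectionVars false

namespace Q182.JQ.CHT

open Finset Module Q44.JQ
open scoped Classical

section abs

variable {s M R s' V : Type} [Fintype s] [Fintype M] [Fintype R] [Fintype s'] [AddCommGroup V]
  [Module (ZMod 2) V] (E : s ⊕ (M ⊕ R) ≃ s')

/-- the labels of the auxiliary system -/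
noncomputable def h0 (ρ' : s' → ZMod 2) : s' ⊕ Unit → s' → ZMod 2 :=
  Sum.elim (fun t => Pi.single t 1) fun _ => ρ' + 1

/-- the symbols of the auxiliary system -/
noncomputable def n0 (ρ' : s' → ZMod 2) (t₀ : s') : s' ⊕ Unit → s' ⊕ Unit → ZMod 2
  | .inl t, .inr u => h0 ρ' (.inl t) t₀ * h0 ρ' (.inr u) t₀
  | _, _ => 0

theorem h0_sum (ρ' : s' → ZMod 2) : ∑ p, h0 ρ' p = ρ' := by
  rw [Fintype.sum_sum_type]
  funext t
  rw [Pi.add_apply, Finset.sum_apply, Finset.sum_apply]
  have h1 : ∑ t', h0 ρ' (Sum.inl t') t = 1 := by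
    show ∑ t', (Pi.single t' 1 : s' → ZMod 2) t = 1
    rw [Finset.sum_eq_single t]
    · rw [Pi.single_eq_same]
    · intro b _ hb
      rw [Pi.single_eq_of_ne hb.symm]
    · intro h
      exact absurd (mem_univ _) h
  rw [h1, Finset.univ_unique, Finset.sum_singleton]
  show 1 + (ρ' t + 1) = ρ' t
  rw [add_left_comm, z2_add_self, add_zero]

theorem h0_Rec (ρ' : s' → ZMod 2) (t₀ : s') : Rec (n0 ρ' t₀) (h0 ρ') t₀ := by
  intro p q hpq
  rcases p with t | u
  · rcases q with t' | u'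
    · show (0 : ZMod 2) = 0 + (Pi.single t 1 : s' → ZMod 2) t₀ * (Pi.single t' 1 : s' → ZMod 2) t₀
      by_cases h1 : t₀ = t
      · have h2 : t₀ ≠ t' := fun h => hpq (by rw [← h1, ← h])
        rw [Pi.single_eq_of_ne h2, mul_zero, add_zero]
      · rw [Pi.single_eq_of_ne h1, zero_mul, add_zero]
    · show (0 : ZMod 2) = h0 ρ' (.inl t) t₀ * h0 ρ' (.inr u') t₀ +
        h0 ρ' (.inl t) t₀ * h0 ρ' (.inr u') t₀
      rw [z2_add_self]
  · rcases q with t' | u'
    · show h0 ρ' (.inl t') t₀ * h0 ρ' (.inr u) t₀ = 0 + h0 ρ' (.inr u) t₀ * h0 ρ' (.inl t') t₀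
      rw [zero_add, mul_comm]
    · exact absurd rfl hpq

theorem h0_Spn (ρ' : s' → ZMod 2) : Spn (h0 ρ') := by
  intro l hl
  funext t
  have h1 := hl (Sum.inl t)
  have h2 : ∑ t', l t' * h0 ρ' (Sum.inl t) t' = l t := by
    show ∑ t', l t' * (Pi.single t 1 : s' → ZMod 2) t' = l t
    rw [Finset.sum_eq_single t]
    · rw [Pi.single_eq_same, mul_one]
    · intro b _ hb
      rw [Pi.single_eq_of_ne hb, mul_zero]
    · intro h
      exact absurd (mem_univ _) h
  rw [h2] at h1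
  exact h1

variable (D : Dj s V) (hM : M → s → ZMod 2) (NM : M → M → ZMod 2) (ρ' : s' → ZMod 2)
  {P : Type} [Fintype P]

theorem NN_Rec (hR : ∀ q q', q ≠ q' → NM q' q = NM q q' + hM q D.s₀ * hM q' D.s₀)
    (N' : P → P → ZMod 2) (h' : P → s' → ZMod 2) (h : Rec N' h' (io E D.s₀)) :
    Rec (NN E D hM NM N' h') (hh E hM h') D.s₀ := by
  intro p q hpq
  rcases p with p | q₁
  · rcases q with p' | q₂
    · exact h p p' fun h1 => hpq (by rw [h1])
    · show h' p (im E q₂) + hM q₂ D.s₀ * h' p (io E D.s₀) =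
        h' p (im E q₂) + h' p (io E D.s₀) * hM q₂ D.s₀
      rw [mul_comm]
  · rcases q with p' | q₂
    · show h' p' (im E q₁) = h' p' (im E q₁) + hM q₁ D.s₀ * h' p' (io E D.s₀) +
        hM q₁ D.s₀ * h' p' (io E D.s₀)
      rw [add_assoc, z2_add_self, add_zero]
    · exact hR q₁ q₂ fun h1 => hpq (by rw [h1])

theorem hh_Spn (h' : P → s' → ZMod 2) (h : Spn h') : Spn (hh E hM h') := by
  intro l hl
  have h1 : mk E l (fun _ => 0) (fun _ => 0) = 0 := by
    refine h _ fun p => ?_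
    rw [sum_split E]
    have h2 : ∑ q : M, mk E l (fun _ => (0 : ZMod 2)) (fun _ => 0) (im E q) * h' p (im E q) = 0 :=
      Finset.sum_eq_zero fun q _ => by rw [mk_im, zero_mul]
    have h3 : ∑ r : R, mk E l (fun _ => (0 : ZMod 2)) (fun _ => 0) (ir E r) * h' p (ir E r) = 0 :=
      Finset.sum_eq_zero fun q _ => by rw [mk_ir, zero_mul]
    rw [h2, h3, add_zero, add_zero]
    refine Eq.trans ?_ (hl (Sum.inl p))
    refine sum_congr rfl fun o _ => ?_
    rw [mk_io]
    rfl
  funext o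
  have h2 := congrFun h1 (io E o)
  rw [mk_io] at h2
  exact h2

variable {D} {D' : Dj s' V} (hD : Cmp (M := M) E D D')

include hD

theorem sym (hS : D.Sym) : D'.Sym where
  alt x := by
    rw [hD.w]
    exact hS.alt x
  adj φ x y := by
    rw [hD.w, hD.t, hD.t, hD.s, map_add, map_add, map_smul, map_smul, LinearMap.add_apply,
      LinearMap.smul_apply, hS.adj]
    abel

theorem sing (hID : S_ID) (hS : D.Sym) (hsing : ∀ y ∈ D.𝓛, D.q y = 0)
    (hR : ∀ q q', q ≠ q' → NM q' q = NM q q' + hM q D.s₀ * hM q' D.s₀)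
    (y : (s' → V) × (s' → V)) (hy : y ∈ LL E D hM NM ρ') : D'.q y = 0 := by
  rw [mem_LL] at hy
  obtain ⟨hy1, hy2, hy3⟩ := hy
  let e : (s' → V) × (s' ⊕ Unit → V) := (y.1, Sum.elim y.2 fun _ => 0)
  have hcl : clL (h0 ρ') e = y := by
    refine Prod.ext rfl ?_
    funext t
    show ∑ p, h0 ρ' p t • e.2 p = y.2 t
    rw [Fintype.sum_sum_type]
    have h1 : ∑ t', h0 ρ' (Sum.inl t') t • e.2 (Sum.inl t') = y.2 t := by
      show ∑ t', (Pi.single t' 1 : s' → ZMod 2) t • y.2 t' = y.2 t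
      rw [Finset.sum_eq_single t]
      · rw [Pi.single_eq_same, one_smul]
      · intro b _ hb
        rw [Pi.single_eq_of_ne hb.symm, zero_smul]
      · intro h
        exact absurd (mem_univ _) h
    have h2 : ∑ u : Unit, h0 ρ' (Sum.inr u) t • e.2 (Sum.inr u) = 0 :=
      Finset.sum_eq_zero fun u _ => smul_zero _
    rw [h1, h2, add_zero]
  have h1 := hID s' V (s' ⊕ Unit) D' (sym E hD hS) (n0 ρ' D'.s₀) (h0 ρ') (h0_Rec ρ' D'.s₀) e
  rw [hcl] at h1
  have h2 := hID s V ((s' ⊕ Unit) ⊕ M) D hS (NN E D hM NM (n0 ρ' D'.s₀) (h0 ρ')) (hh E hM (h0 ρ'))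
    (NN_Rec E D hM NM hR _ _ (by rw [← hD.s]; exact h0_Rec ρ' D'.s₀)) (gg E e)
  rw [cl_gg, hcl, hsing _ hy1, Fintype.sum_sum_type] at h2
  have h3 : ∑ q : M, D.ω ((gg E e).2 (Sum.inr q))
      (rowL D (NN E D hM NM (n0 ρ' D'.s₀) (h0 ρ')) (hh E hM (h0 ρ')) (gg E e) (Sum.inr q)) = 0 := by
    refine Finset.sum_eq_zero fun q _ => ?_
    rw [row_inr E hM NM ρ' _ _ (h0_sum ρ'), hcl, hy2, map_zero]
  rw [h3, add_zero] at h2
  rw [← h1, ← h2, hD.w]
  refine sum_congr rfl fun p _ => ?_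
  rw [row_inl E hM NM hD _ _ e hy3]
  rfl

omit hD in
theorem card_LL (hfin : Finite V) (hc : Nat.card D.𝓛 = Nat.card V ^ Fintype.card s) :
    Nat.card (LL E D hM NM ρ') = Nat.card V ^ Fintype.card s' := by
  have h1 : Fintype.card s' = Fintype.card s + (Fintype.card M + Fintype.card R) := by
    rw [← Fintype.card_congr E, Fintype.card_sum, Fintype.card_sum]
  have h2 : Nat.card (LL E D hM NM ρ') = Nat.card (D.𝓛 × ((M → V) × (R → V))) := by
    refine Nat.card_eq_of_bijective (fun y : LL E D hM NM ρ' =>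
      ((⟨psm E hM y.1, ((mem_LL E D hM NM ρ').1 y.2).1⟩, (fun q => y.1.1 (im E q)),
        fun r => y.1.2 (ir E r)) : D.𝓛 × ((M → V) × (R → V)))) ⟨?_, ?_⟩
    · rintro ⟨y, hy⟩ ⟨z, hz⟩ h
      obtain ⟨hy1, hy2, hy3⟩ := (mem_LL E D hM NM ρ').1 hy
      obtain ⟨hz1, hz2, hz3⟩ := (mem_LL E D hM NM ρ').1 hz
      have e1 : psm E hM y = psm E hM z := congrArg (fun a => (a.1 : (s → V) × (s → V))) h
      have e2 : (fun q => y.1 (im E q)) = fun q => z.1 (im E q) := congrArg (fun a => a.2.1) h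
      have e3 : (fun r => y.2 (ir E r)) = fun r => z.2 (ir E r) := congrArg (fun a => a.2.2) h
      have e4 : ∀ o, y.1 (io E o) = z.1 (io E o) := fun o => congrFun (congrArg Prod.fst e1) o
      have e5 : ∀ o, y.2 (io E o) = z.2 (io E o) := by
        intro o
        have h4 : y.2 (io E o) + ∑ q, hM q o • y.1 (im E q) =
            z.2 (io E o) + ∑ q, hM q o • z.1 (im E q) := congrFun (congrArg Prod.snd e1) o
        have h5 : ∀ q, y.1 (im E q) = z.1 (im E q) := fun q => congrFun e2 q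
        simp only [h5] at h4
        exact add_right_cancel h4
      have e6 : y.1 = z.1 := ext_split E e4 (fun q => congrFun e2 q) fun r => by rw [hy3, hz3]
      refine Subtype.ext (Prod.ext e6 (ext_split E e5 ?_ fun r => congrFun e3 r))
      intro q
      have h4 := (hy2 q).trans (hz2 q).symm
      have h5 : y.2 (im E q) + hM q D.s₀ • y.2 (io E D.s₀) +
          (ρ' (im E q) + hM q D.s₀ * ρ' (io E D.s₀)) • y.1 (im E q) +
          ∑ q', NM q q' • (y.1 (im E q') + y.1 (im E q)) + D.T (hM q) (y.1 (im E q)) +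
          ∑ o, hM q o • y.1 (io E o) = z.2 (im E q) + hM q D.s₀ • z.2 (io E D.s₀) +
          (ρ' (im E q) + hM q D.s₀ * ρ' (io E D.s₀)) • z.1 (im E q) +
          ∑ q', NM q q' • (z.1 (im E q') + z.1 (im E q)) + D.T (hM q) (z.1 (im E q)) +
          ∑ o, hM q o • z.1 (io E o) := h4
      rw [e6, e5] at h5
      simpa only [add_left_inj] using h5
    · rintro ⟨⟨f, hf⟩, x, w⟩
      let A : s' → V := mk E f.1 x fun _ => 0
      let ψ : s → V := fun o => f.2 o + ∑ q, hM q o • x q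
      let B : s' → V := mk E ψ (fun q => hM q D.s₀ • ψ D.s₀ +
        (ρ' (im E q) + hM q D.s₀ * ρ' (io E D.s₀)) • x q +
        ∑ q', NM q q' • (x q' + x q) + D.T (hM q) (x q) + ∑ o, hM q o • f.1 o) w
      have hA1 : ∀ o, A (io E o) = f.1 o := fun o => mk_io E _ _ _ o
      have hA2 : ∀ q, A (im E q) = x q := fun q => mk_im E _ _ _ q
      have hA3 : ∀ r, A (ir E r) = 0 := fun q => mk_ir E _ _ _ q
      have hB1 : ∀ o, B (io E o) = ψ o := fun o => mk_io E _ _ _ o
      have hB2 : ∀ q, B (im E q) = hM q D.s₀ • ψ D.s₀ +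
        (ρ' (im E q) + hM q D.s₀ * ρ' (io E D.s₀)) • x q +
        ∑ q', NM q q' • (x q' + x q) + D.T (hM q) (x q) + ∑ o, hM q o • f.1 o :=
        fun q => mk_im E _ _ _ q
      have hB3 : ∀ r, B (ir E r) = w r := fun q => mk_ir E _ _ _ q
      have hps : psm E hM (A, B) = f := by
        refine Prod.ext (funext hA1) (funext fun o => ?_)
        show B (io E o) + ∑ q, hM q o • A (im E q) = f.2 o
        simp only [hA2, hB1]
        show f.2 o + ∑ q, hM q o • x q + ∑ q, hM q o • x q = f.2 o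
        rw [add_assoc, v2, add_zero]
      have hmem : (A, B) ∈ LL E D hM NM ρ' := by
        rw [mem_LL]
        refine ⟨by rw [hps]; exact hf, fun q => ?_, hA3⟩
        show B (im E q) + hM q D.s₀ • B (io E D.s₀) +
          (ρ' (im E q) + hM q D.s₀ * ρ' (io E D.s₀)) • A (im E q) +
          ∑ q', NM q q' • (A (im E q') + A (im E q)) + D.T (hM q) (A (im E q)) +
          ∑ o, hM q o • A (io E o) = 0
        simp only [hA1, hA2, hB1, hB2]
        generalize hM q D.s₀ • ψ D.s₀ = a₁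
        generalize (ρ' (im E q) + hM q D.s₀ * ρ' (io E D.s₀)) • x q = a₂
        generalize ∑ q', NM q q' • (x q' + x q) = a₃
        generalize D.T (hM q) (x q) = a₄
        generalize ∑ o, hM q o • f.1 o = a₅
        have h4 : a₁ + a₂ + a₃ + a₄ + a₅ + a₁ + a₂ + a₃ + a₄ + a₅ =
            (a₁ + a₁) + (a₂ + a₂) + (a₃ + a₃) + (a₄ + a₄) + (a₅ + a₅) := by abel
        rw [h4]
        simp only [v2, add_zero]
      refine ⟨⟨(A, B), hmem⟩, ?_⟩
      refine Prod.ext (Subtype.ext hps) (Prod.ext (funext hA2) (funext hB3))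
  rw [h2, Nat.card_prod, Nat.card_prod, hc, Nat.card_fun, Nat.card_fun, h1, pow_add, pow_add,
    Nat.card_eq_fintype_card (α := M), Nat.card_eq_fintype_card (α := R)]

theorem tor_LL (hOk : ∀ x : V, ((fun t => D.T (Pi.single t 1) x),
      (fun o => (ρ' (io E o) + ∑ q, hM q o) • x)) ∈ D.𝓛) (x : V) :
    ((fun t => D'.T (Pi.single t 1) x), (fun t => ρ' t • x)) ∈ LL E D hM NM ρ' := by
  have hio : ∀ o, D'.T (Pi.single (io E o) 1) x = D.T (Pi.single o 1) x := by
    intro o
    rw [hD.t]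
    have h1 : (fun o' => (Pi.single (io E o) 1 : s' → ZMod 2) (io E o')) = Pi.single o 1 := by
      funext o'
      by_cases h : o' = o
      · rw [h, Pi.single_eq_same, Pi.single_eq_same]
      · rw [Pi.single_eq_of_ne h, Pi.single_eq_of_ne]
        intro h2
        exact h (Sum.inl_injective (E.injective h2))
    have h2 : ∑ q : M, (Pi.single (io E o) 1 : s' → ZMod 2) (im E q) = 0 := by
      refine Finset.sum_eq_zero fun q _ => Pi.single_eq_of_ne ?_ _
      intro h2
      exact Sum.inr_ne_inl (E.injective h2)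
    rw [h1, h2, zero_smul, add_zero]
  have him : ∀ q : M, D'.T (Pi.single (im E q) 1) x = x := by
    intro q
    rw [hD.t]
    have h1 : (fun o' => (Pi.single (im E q) 1 : s' → ZMod 2) (io E o')) = 0 := by
      funext o'
      refine Pi.single_eq_of_ne ?_ _
      intro h2
      exact Sum.inl_ne_inr (E.injective h2)
    have h2 : ∑ q' : M, (Pi.single (im E q) 1 : s' → ZMod 2) (im E q') = 1 := by
      rw [Finset.sum_eq_single q]
      · rw [Pi.single_eq_same]
      · intro b _ hb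
        refine Pi.single_eq_of_ne ?_ _
        intro h2
        exact hb (Sum.inl_injective (Sum.inr_injective (E.injective h2)))
      · intro h
        exact absurd (mem_univ _) h
    rw [h1, h2, one_smul, map_zero, LinearMap.zero_apply, zero_add]
  have hir : ∀ r : R, D'.T (Pi.single (ir E r) 1) x = 0 := by
    intro r
    rw [hD.t]
    have h1 : (fun o' => (Pi.single (ir E r) 1 : s' → ZMod 2) (io E o')) = 0 := by
      funext o'
      refine Pi.single_eq_of_ne ?_ _
      intro h2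
      exact Sum.inl_ne_inr (E.injective h2)
    have h2 : ∑ q' : M, (Pi.single (ir E r) 1 : s' → ZMod 2) (im E q') = 0 := by
      refine Finset.sum_eq_zero fun q _ => Pi.single_eq_of_ne ?_ _
      intro h2
      exact Sum.inl_ne_inr (Sum.inr_injective (E.injective h2))
    rw [h1, h2, zero_smul, map_zero, LinearMap.zero_apply, zero_add]
  rw [mem_LL]
  refine ⟨?_, fun q => ?_, hir⟩
  · have h1 : psm E hM ((fun t => D'.T (Pi.single t 1) x), (fun t => ρ' t • x)) =
        ((fun t => D.T (Pi.single t 1) x), (fun o => (ρ' (io E o) + ∑ q, hM q o) • x)) := by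
      refine Prod.ext (funext hio) (funext fun o => ?_)
      show ρ' (io E o) • x + ∑ q : M, hM q o • D'.T (Pi.single (im E q) 1) x = _
      simp only [him]
      rw [add_smul, sum_smul]
    rw [h1]
    exact hOk x
  · show ρ' (im E q) • x + hM q D.s₀ • (ρ' (io E D.s₀) • x) +
      (ρ' (im E q) + hM q D.s₀ * ρ' (io E D.s₀)) • D'.T (Pi.single (im E q) 1) x +
      ∑ q', NM q q' • (D'.T (Pi.single (im E q') 1) x + D'.T (Pi.single (im E q) 1) x) +
      D.T (hM q) (D'.T (Pi.single (im E q) 1) x) + ∑ o, hM q o • D'.T (Pi.single (io E o) 1) x = 0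
    simp only [him, hio]
    have h1 : ∑ q', NM q q' • (x + x) = 0 := by
      refine Finset.sum_eq_zero fun q' _ => ?_
      rw [v2, smul_zero]
    have h2 : ∑ o, hM q o • D.T (Pi.single o 1) x = D.T (hM q) x := by
      have h3 : hM q = ∑ o, hM q o • (Pi.single o 1 : s → ZMod 2) := by
        funext o
        rw [Finset.sum_apply, Finset.sum_eq_single o]
        · rw [Pi.smul_apply, Pi.single_eq_same, smul_eq_mul, mul_one]
        · intro b _ hb
          rw [Pi.smul_apply, Pi.single_eq_of_ne hb.symm, smul_zero]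
        · intro h
          exact absurd (mem_univ _) h
      conv_rhs => rw [h3]
      rw [map_sum, LinearMap.sum_apply]
      refine sum_congr rfl fun o _ => ?_
      rw [map_smul, LinearMap.smul_apply]
    rw [h1, h2, add_zero, add_assoc, v2, add_zero, add_smul, mul_smul]
    exact v2 _

theorem ok_LL (hID : S_ID) (hfin : Finite V) (hOk : D.Ok fun o => ρ' (io E o) + ∑ q, hM q o)
    (hR : ∀ q q', q ≠ q' → NM q' q = NM q q' + hM q D.s₀ * hM q' D.s₀)
    (hL : D'.𝓛 = LL E D hM NM ρ') : D'.Ok ρ' where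
  toSym := sym E hD hOk.toSym
  nd x hx := hOk.nd x fun y => by
    rw [← hD.w]
    exact hx y
  card := by
    rw [hL]
    exact card_LL E hM NM ρ' hfin hOk.card
  sing y hy := sing E hM NM ρ' hD hID hOk.toSym hOk.sing hR y (by rw [← hL]; exact hy)
  tor x := by
    rw [hL]
    exact tor_LL E hM NM ρ' hD hOk.tor x

theorem par_LL (hID : S_ID) (hPAR : S_PAR) (hfin : Finite V)
    (hOk : D.Ok fun o => ρ' (io E o) + ∑ q, hM q o)
    (hR : ∀ q q', q ≠ q' → NM q' q = NM q q' + hM q D.s₀ * hM q' D.s₀)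
    (hL : D'.𝓛 = LL E D hM NM ρ') :
    ((finrank (ZMod 2) D'.pm : ℕ) : ZMod 2) = ((finrank (ZMod 2) D.pm : ℕ) : ZMod 2) := by
  have h1 := hPAR s' V (s' ⊕ Unit) D' ρ' (ok_LL E hM NM ρ' hD hID hfin hOk hR hL) (n0 ρ' D'.s₀)
    (h0 ρ') (h0_Rec ρ' D'.s₀) (h0_Spn ρ')
  have h2 := hPAR s V ((s' ⊕ Unit) ⊕ M) D _ hOk (NN E D hM NM (n0 ρ' D'.s₀) (h0 ρ'))
    (hh E hM (h0 ρ')) (NN_Rec E D hM NM hR _ _ (by rw [← hD.s]; exact h0_Rec ρ' D'.s₀))
    (hh_Spn E hM _ (h0_Spn ρ'))
  have h3 := card_Sel E hM NM ρ' hD hL (n0 ρ' D'.s₀) (h0 ρ') (h0_sum ρ')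
  have h4 : finrank (ZMod 2) (Sel D (NN E D hM NM (n0 ρ' D'.s₀) (h0 ρ')) (hh E hM (h0 ρ'))) =
      finrank (ZMod 2) (Sel D' (n0 ρ' D'.s₀) (h0 ρ')) := by
    rw [Module.natCard_eq_pow_finrank (K := ZMod 2)
        (V := Sel D (NN E D hM NM (n0 ρ' D'.s₀) (h0 ρ')) (hh E hM (h0 ρ'))),
      Module.natCard_eq_pow_finrank (K := ZMod 2) (V := Sel D' (n0 ρ' D'.s₀) (h0 ρ')),
      Nat.card_zmod] at h3
    exact Nat.pow_right_injective (le_refl 2) h3
  rw [← h1, ← h2, h4]

end abs

end Q182.JQ.CHT
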