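import Pool.Agent.Q44.JQ.StmH

/-!
# JQ-ELL: the two descriptions of the 2-Selmer group of an elliptic curve with full 2-torsion
-/

set_option autoImplicit false
set_option linter.unusedVariables false

namespace Q182.JQ.ELL

open Polynomial Filter Topology
open Pool.Agent.TH344.JG (LocJ SelJ)
open Pool.Agent.W307.SE (LocR SelR)

section field

variable {K : Type} [Field K]

/-- `δ` is the class of a point of `y ^ 2 = (x - e 0) (x - e 1) (x - e 2)` with `y ≠ 0` -/
def Pt (e δ : Fin 3 → K) : Prop :=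
  ∃ x y : K, y ≠ 0 ∧ y ^ 2 = ∏ i, (x - e i) ∧ ∀ i, IsSquare ((x - e i) * δ i)

/-- simultaneous squares near one -/
def H3 (K : Type) [Field K] : Prop :=
  ∀ a : Fin 3 → K, ∃ s : K, s ≠ 0 ∧ ∀ i, ∃ r : K, r ≠ 0 ∧ 1 + a i * s ^ 2 = r ^ 2

theorem Pt.congr {e δ ε : Fin 3 → K} (h : Pt e δ) (h0 : ∀ i, δ i ≠ 0)
    (h1 : ∀ i, IsSquare (δ i * ε i)) : Pt e ε := by
  obtain ⟨x, y, hy, hxy, hs⟩ := h
  refine ⟨x, y, hy, hxy, fun i => ?_⟩
  obtain ⟨a, ha⟩ := hs i
  obtain ⟨b, hb⟩ := h1 i
  have h2 := h0 i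
  refine ⟨a * b / δ i, ?_⟩
  have h3 : (x - e i) * ε i * δ i ^ 2 = ((x - e i) * δ i) * (δ i * ε i) := by ring
  have h4 : (x - e i) * ε i * δ i ^ 2 = (a * b) ^ 2 := by rw [h3, ha, hb]; ring
  rw [div_mul_div_comm, eq_div_iff (mul_ne_zero h2 h2), ← pow_two, h4, pow_two]

/-- the product of the differences -/
def D (e : Fin 3 → K) (i : Fin 3) : K := ∏ j ∈ Finset.univ.erase i, (e i - e j)

theorem D_ne {e : Fin 3 → K} (he : Function.Injective e) (i : Fin 3) : D e i ≠ 0 := by
  unfold D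
  rw [Finset.prod_ne_zero_iff]
  intro j hj
  rw [Finset.mem_erase] at hj
  exact sub_ne_zero.2 fun h => hj.1 (he h).symm

theorem Pt_one (hK : H3 K) (e : Fin 3 → K) : Pt e (fun _ => 1) := by
  obtain ⟨s, hs, h⟩ := hK (fun i => - e i)
  choose r hr hr2 using h
  have key : ∀ i, 1 / s ^ 2 - e i = (r i / s) ^ 2 := by
    intro i
    rw [div_pow, ← hr2 i]
    field_simp
    ring
  refine ⟨1 / s ^ 2, ∏ i, (r i / s), ?_, ?_, ?_⟩
  · rw [Finset.prod_ne_zero_iff]
    exact fun i _ => div_ne_zero (hr i) hs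
  · rw [← Finset.prod_pow]
    exact Finset.prod_congr rfl fun i _ => (key i).symm
  · intro i
    rw [mul_one, key i]
    exact ⟨_, pow_two _⟩

theorem Pt_tor (hK : H3 K) {e : Fin 3 → K} (he : Function.Injective e) (i : Fin 3) :
    Pt e (fun j => if j = i then D e i else e i - e j) := by
  have hD := D_ne he i
  obtain ⟨s, hs, h⟩ := hK (fun j => D e i / (e i - e j))
  choose r hr hr2 using h
  have key : ∀ j, j ≠ i → e i + D e i * s ^ 2 - e j = (e i - e j) * r j ^ 2 := by
    intro j hj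
    have h1 : e i - e j ≠ 0 := sub_ne_zero.2 fun h => hj (he h).symm
    rw [← hr2 j]
    field_simp
    ring
  refine ⟨e i + D e i * s ^ 2, D e i * s * ∏ j ∈ Finset.univ.erase i, r j, ?_, ?_, ?_⟩
  · refine mul_ne_zero (mul_ne_zero hD hs) ?_
    rw [Finset.prod_ne_zero_iff]
    exact fun j _ => hr j
  · rw [← Finset.mul_prod_erase Finset.univ _ (Finset.mem_univ i)]
    have h2 : ∏ j ∈ Finset.univ.erase i, (e i + D e i * s ^ 2 - e j) =
        D e i * ∏ j ∈ Finset.univ.erase i, r j ^ 2 := by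
      conv_rhs => rw [D, ← Finset.prod_mul_distrib]
      exact Finset.prod_congr rfl fun j hj => key j (Finset.mem_erase.1 hj).1
    rw [h2, Finset.prod_pow]
    ring
  · intro j
    show IsSquare ((e i + D e i * s ^ 2 - e j) * (if j = i then D e i else e i - e j))
    by_cases hj : j = i
    · subst hj
      rw [if_pos rfl]
      exact ⟨D e j * s, by ring⟩
    · rw [if_neg hj, key j hj]
      exact ⟨(e i - e j) * r j, by ring⟩

open Classical in
/-- the values of the class of a divisor -/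
noncomputable def V (e : Fin 3 → K) (u : K[X]) (i : Fin 3) : K :=
  if u.eval (e i) ≠ 0 then (-1) ^ u.natDegree * u.eval (e i)
  else (-1) ^ (u.natDegree + 1) * (u /ₘ (X - C (e i))).eval (e i) * D e i

/-- the polynomial of the curve -/
noncomputable def F (e : Fin 3 → K) : K[X] := ∏ i, (X - C (e i))

theorem V_aux {e : Fin 3 → K} (i : Fin 3) {u w v : K[X]} {c : K}
    (h : u * (C c * w) = F e - v ^ 2) (h0 : u.eval (e i) = 0) :
    (u /ₘ (X - C (e i))).eval (e i) * (c * w.eval (e i)) = D e i := by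
  set P : K[X] := ∏ j ∈ Finset.univ.erase i, (X - C (e j)) with hP
  have hPe : P.eval (e i) = D e i := by
    rw [hP, eval_prod, D]
    simp
  have hF : F e = (X - C (e i)) * P := by
    rw [F, hP, Finset.mul_prod_erase Finset.univ (fun j => X - C (e j)) (Finset.mem_univ i)]
  have hu1 : (X - C (e i)) * (u /ₘ (X - C (e i))) = u := mul_divByMonic_eq_iff_isRoot.2 h0
  have hv0 : v.IsRoot (e i) := by
    have h1 := congrArg (eval (e i)) h
    rw [eval_mul, h0, zero_mul, eval_sub, hF, eval_mul, eval_sub, eval_X, eval_C, sub_self,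
      zero_mul, zero_sub, eval_pow] at h1
    have h2 : (v.eval (e i)) ^ 2 = 0 := by
      have := h1.symm
      rwa [neg_eq_zero] at this
    exact pow_eq_zero_iff (two_ne_zero) |>.1 h2
  have hv1 : (X - C (e i)) * (v /ₘ (X - C (e i))) = v := mul_divByMonic_eq_iff_isRoot.2 hv0
  set u1 := u /ₘ (X - C (e i)) with hu1d
  set v1 := v /ₘ (X - C (e i)) with hv1d
  have h3 : (X - C (e i)) * (u1 * (C c * w)) = (X - C (e i)) * (P - (X - C (e i)) * v1 ^ 2) := by
    calc (X - C (e i)) * (u1 * (C c * w)) = ((X - C (e i)) * u1) * (C c * w) := by ring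
      _ = u * (C c * w) := by rw [hu1]
      _ = F e - v ^ 2 := h
      _ = (X - C (e i)) * P - ((X - C (e i)) * v1) ^ 2 := by rw [hF, hv1]
      _ = _ := by ring
  have h4 := mul_left_cancel₀ (X_sub_C_ne_zero (e i)) h3
  have h5 := congrArg (eval (e i)) h4
  rw [eval_mul, eval_mul, eval_C, eval_sub, hPe, eval_mul, eval_sub, eval_X, eval_C, sub_self,
    zero_mul, sub_zero] at h5
  exact h5

theorem V_case {e : Fin 3 → K} (he : Function.Injective e) (i : Fin 3) {u w v : K[X]} {c s : K}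
    (h : u * (C c * w) = F e - v ^ 2) (hc : c ≠ 0)
    (hs : -((-1) ^ (u.natDegree + w.natDegree)) * c = s ^ 2) (h0 : u.eval (e i) = 0) :
    V e u i ≠ 0 ∧ V e w i ≠ 0 ∧ IsSquare (V e u i * V e w i) := by
  have h1 := V_aux i h h0
  have hD := D_ne he i
  have hu1 : (u /ₘ (X - C (e i))).eval (e i) ≠ 0 := by
    intro h2
    rw [h2, zero_mul] at h1
    exact hD h1.symm
  have hw : w.eval (e i) ≠ 0 := by
    intro h2
    rw [h2, mul_zero, mul_zero] at h1
    exact hD h1.symm
  have e1 : V e u i = (-1) ^ (u.natDegree + 1) * (u /ₘ (X - C (e i))).eval (e i) * D e i := by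
    unfold V
    rw [if_neg (not_not.2 h0)]
  have e2 : V e w i = (-1) ^ w.natDegree * w.eval (e i) := by
    unfold V
    rw [if_pos hw]
  rw [e1, e2]
  have hp : ∀ n : ℕ, ((-1 : K)) ^ n ≠ 0 := fun n => pow_ne_zero _ (by simp)
  refine ⟨mul_ne_zero (mul_ne_zero (hp _) hu1) hD, mul_ne_zero (hp _) hw, s * D e i / c, ?_⟩
  rw [div_mul_div_comm, eq_div_iff (mul_ne_zero hc hc)]
  calc (-1) ^ (u.natDegree + 1) * (u /ₘ (X - C (e i))).eval (e i) * D e i *
      ((-1) ^ w.natDegree * w.eval (e i)) * (c * c)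
      = (-((-1) ^ (u.natDegree + w.natDegree)) * c) * D e i *
        ((u /ₘ (X - C (e i))).eval (e i) * (c * w.eval (e i))) := by ring
    _ = s ^ 2 * D e i * D e i := by rw [hs, h1]
    _ = _ := by ring

theorem V_mul {e : Fin 3 → K} (he : Function.Injective e) (i : Fin 3) {u w v : K[X]} {c s : K}
    (h : u * (C c * w) = F e - v ^ 2) (hc : c ≠ 0)
    (hs : -((-1) ^ (u.natDegree + w.natDegree)) * c = s ^ 2) :
    V e u i ≠ 0 ∧ V e w i ≠ 0 ∧ IsSquare (V e u i * V e w i) := by
  by_cases hu : u.eval (e i) = 0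
  · exact V_case he i h hc hs hu
  by_cases hw : w.eval (e i) = 0
  · have h' : w * (C c * u) = F e - v ^ 2 := by rw [← h]; ring
    have hs' : -((-1) ^ (w.natDegree + u.natDegree)) * c = s ^ 2 := by rw [← hs, add_comm]
    obtain ⟨a, b, d⟩ := V_case he i h' hc hs' hw
    exact ⟨b, a, by rwa [mul_comm]⟩
  have e1 : V e u i = (-1) ^ u.natDegree * u.eval (e i) := by
    unfold V
    rw [if_pos hu]
  have e2 : V e w i = (-1) ^ w.natDegree * w.eval (e i) := by
    unfold V
    rw [if_pos hw]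
  rw [e1, e2]
  have hp : ∀ n : ℕ, ((-1 : K)) ^ n ≠ 0 := fun n => pow_ne_zero _ (by simp)
  refine ⟨mul_ne_zero (hp _) hu, mul_ne_zero (hp _) hw, s * v.eval (e i) / c, ?_⟩
  have h1 : u.eval (e i) * (c * w.eval (e i)) = - (v.eval (e i)) ^ 2 := by
    have h2 := congrArg (eval (e i)) h
    have hF : (F e).eval (e i) = 0 := by
      rw [F, eval_prod]
      exact Finset.prod_eq_zero (Finset.mem_univ i) (by simp)
    rw [eval_mul, eval_mul, eval_C, eval_sub, hF, zero_sub, eval_pow] at h2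
    exact h2
  rw [div_mul_div_comm, eq_div_iff (mul_ne_zero hc hc)]
  calc (-1) ^ u.natDegree * u.eval (e i) * ((-1) ^ w.natDegree * w.eval (e i)) * (c * c)
      = -(-((-1) ^ (u.natDegree + w.natDegree)) * c) * (u.eval (e i) * (c * w.eval (e i))) := by
        ring
    _ = -(s ^ 2) * (- (v.eval (e i)) ^ 2) := by rw [hs, h1]
    _ = _ := by ring

theorem F_monic (e : Fin 3 → K) : (F e).Monic := monic_prod_of_monic _ _ fun i _ => monic_X_sub_C _

theorem F_deg (e : Fin 3 → K) : (F e).natDegree = 3 := by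
  rw [F, natDegree_prod_of_monic _ _ fun i _ => monic_X_sub_C _]
  simp

/-- the degree and the leading coefficient of `F - v ^ 2` -/
theorem F_sub (e : Fin 3 → K) (v : K[X]) : F e - v ^ 2 ≠ 0 ∧
    (∃ s : K, -((-1) ^ (F e - v ^ 2).natDegree) * (F e - v ^ 2).leadingCoeff = s ^ 2) ∧
    (F e - v ^ 2).natDegree ≤ max 3 (2 * v.natDegree) := by
  by_cases hv : v.natDegree ≤ 1
  · have h1 : (v ^ 2).natDegree < (F e).natDegree := by
      rw [natDegree_pow, F_deg]
      omega
    have h2 : (v ^ 2).degree < (F e).degree := degree_lt_degree h1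
    have h3 : (F e - v ^ 2).natDegree = 3 := by
      rw [natDegree_sub_eq_left_of_natDegree_lt h1, F_deg]
    have h4 : (F e - v ^ 2).leadingCoeff = 1 := by
      rw [leadingCoeff_sub_of_degree_lt h2]
      exact F_monic e
    refine ⟨?_, ⟨1, ?_⟩, ?_⟩
    · intro h
      rw [h] at h4
      simp at h4
    · rw [h3, h4]
      norm_num
    · rw [h3]
      exact le_max_left _ _
  · push Not at hv
    have h1 : (F e).natDegree < (v ^ 2).natDegree := by
      rw [natDegree_pow, F_deg]
      omega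
    have h2 : (F e).degree < (v ^ 2).degree := degree_lt_degree h1
    have h3 : (F e - v ^ 2).natDegree = 2 * v.natDegree := by
      rw [natDegree_sub_eq_right_of_natDegree_lt h1, natDegree_pow]
    have h4 : (F e - v ^ 2).leadingCoeff = - v.leadingCoeff ^ 2 := by
      rw [leadingCoeff_sub_of_degree_lt' h2, leadingCoeff_pow]
    refine ⟨?_, ⟨v.leadingCoeff, ?_⟩, ?_⟩
    · intro h
      rw [h, natDegree_zero] at h3
      omega
    · rw [h3, h4, pow_mul]
      norm_num
    · rw [h3]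
      exact le_max_right _ _

theorem main (hK : H3 K) {e : Fin 3 → K} (he : Function.Injective e) :
    ∀ (n : ℕ) (u v : K[X]), u.natDegree = n → u.Monic → u ∣ F e - v ^ 2 → Pt e (V e u) := by
  intro n
  induction n using Nat.strong_induction_on with
  | _ n ih =>
    intro u v hn hu huv
    rcases Nat.lt_or_ge n 2 with hn2 | hn2
    · interval_cases n
      · have h1 : u = 1 := eq_one_of_monic_natDegree_zero hu hn
        subst h1
        have h2 : V e (1 : K[X]) = fun _ => 1 := by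
          funext i
          unfold V
          rw [if_pos (by simp)]
          simp
        rw [h2]
        exact Pt_one hK e
      · have h1 := hu.eq_X_add_C hn
        obtain ⟨x, hx⟩ : ∃ x, u = X - C x := ⟨-u.coeff 0, by rw [C_neg, sub_neg_eq_add]; exact h1⟩
        subst hx
        have hue : ∀ j, (X - C x : K[X]).eval (e j) = e j - x := fun j => by simp
        have hFx : (F e).eval x = (v.eval x) ^ 2 := by
          have h2 := (dvd_iff_isRoot.1 huv)
          rw [IsRoot, eval_sub, eval_pow, sub_eq_zero] at h2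
          exact h2
        have hFp : (F e).eval x = ∏ i, (x - e i) := by
          rw [F, eval_prod]
          simp
        by_cases hy : v.eval x = 0
        · have h3 : ∏ i, (x - e i) = 0 := by rw [← hFp, hFx, hy]; ring
          obtain ⟨i, -, hi⟩ := Finset.prod_eq_zero_iff.1 h3
          have hxi : x = e i := sub_eq_zero.1 hi
          subst hxi
          have h4 : V e (X - C (e i)) = fun j => if j = i then D e i else e i - e j := by
            funext j
            by_cases hj : j = i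
            · subst hj
              rw [if_pos rfl]
              unfold V
              have h5 : (X - C (e j) : K[X]) /ₘ (X - C (e j)) = 1 := by
                have h6 : (X - C (e j)) * ((X - C (e j) : K[X]) /ₘ (X - C (e j))) = X - C (e j) :=
                  mul_divByMonic_eq_iff_isRoot.2 (by simp)
                exact mul_left_cancel₀ (X_sub_C_ne_zero (e j)) (by rw [h6, mul_one])
              rw [if_neg (not_not.2 (by simp)), h5]
              simp
            · rw [if_neg hj]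
              unfold V
              rw [if_pos (by rw [hue]; exact sub_ne_zero.2 fun h => hj (he h)), hue,
                natDegree_X_sub_C]
              ring
          rw [h4]
          exact Pt_tor hK he i
        · refine ⟨x, v.eval x, hy, by rw [← hFx, hFp], fun i => ?_⟩
          have h5 : x - e i ≠ 0 := by
            intro h6
            have : ∏ i, (x - e i) = 0 := Finset.prod_eq_zero (Finset.mem_univ i) h6
            rw [← hFp, hFx] at this
            exact hy (pow_eq_zero_iff (two_ne_zero) |>.1 this)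
          have h6 : V e (X - C x) i = x - e i := by
            unfold V
            rw [if_pos (by rw [hue]; exact fun h => h5 (by rw [← neg_sub, h, neg_zero])), hue,
              natDegree_X_sub_C]
            ring
          rw [h6]
          exact ⟨_, rfl⟩
    · have hu1 : u ≠ 1 := by
        intro h
        rw [h, natDegree_one] at hn
        omega
      have hd := natDegree_modByMonic_lt v hu hu1
      have huv' : u ∣ F e - (v %ₘ u) ^ 2 := by
        have h1 : F e - (v %ₘ u) ^ 2 = (F e - v ^ 2) + u * ((v /ₘ u) * (v + v %ₘ u)) := by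
          have h2 := modByMonic_add_div v u
          calc F e - (v %ₘ u) ^ 2 = (F e - v ^ 2) + (v - v %ₘ u) * (v + v %ₘ u) := by ring
            _ = (F e - v ^ 2) + (u * (v /ₘ u)) * (v + v %ₘ u) := by
              rw [show v - v %ₘ u = u * (v /ₘ u) from by
                nth_rewrite 1 [← h2]
                ring]
            _ = _ := by ring
        rw [h1]
        exact dvd_add huv (dvd_mul_right _ _)
      obtain ⟨hG0, ⟨s, hs⟩, hGd⟩ := F_sub e (v %ₘ u)
      obtain ⟨w', hw'⟩ := huv'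
      have hw0 : w' ≠ 0 := by
        rintro rfl
        rw [mul_zero] at hw'
        exact hG0 hw'
      have hlc : (F e - (v %ₘ u) ^ 2).leadingCoeff = w'.leadingCoeff := by
        rw [hw', leadingCoeff_mul, hu.leadingCoeff, one_mul]
      have hnd : (F e - (v %ₘ u) ^ 2).natDegree = u.natDegree + w'.natDegree := by
        rw [hw', hu.natDegree_mul' hw0]
      set c := w'.leadingCoeff with hc
      have hc0 : c ≠ 0 := leadingCoeff_ne_zero.2 hw0
      set w := C c⁻¹ * w' with hw
      have hwd : w.natDegree = w'.natDegree := natDegree_C_mul (inv_ne_zero hc0)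
      have hwm : w.Monic := by
        rw [hw]
        exact monic_C_mul_of_mul_leadingCoeff_eq_one (inv_mul_cancel₀ hc0)
      have hcw : C c * w = w' := by
        rw [hw, ← mul_assoc, ← C_mul, mul_inv_cancel₀ hc0, C_1, one_mul]
      have hlt : w.natDegree < n := by
        rw [hwd]
        rw [hn] at hnd hd
        have := hGd
        rw [hnd] at this
        rcases le_max_iff.1 this with h | h
        · omega
        · omega
      have h7 : u * (C c * w) = F e - (v %ₘ u) ^ 2 := by rw [hcw, hw']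
      have h8 : -((-1) ^ (u.natDegree + w.natDegree)) * c = s ^ 2 := by
        rw [← hs, hlc, hnd, hwd]
      have h9 := ih _ hlt w (v %ₘ u) rfl hwm ⟨C c * u, by rw [← h7]; ring⟩
      refine h9.congr (fun i => (V_mul he i h7 hc0 h8).2.1) fun i => ?_
      rw [mul_comm]
      exact (V_mul he i h7 hc0 h8).2.2

theorem LocJ_pt (hK : H3 K) {a d : Fin 3 → ℤ} (he : Function.Injective fun i => ((a i : ℤ) : K))
    (h : LocJ K a d) : Pt (fun i => ((a i : ℤ) : K)) (fun i => ((d i : ℤ) : K)) := by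
  obtain ⟨u, v, hu, huv, hs⟩ := h
  have h1 := main hK he _ u v rfl hu huv
  have h2 : ∀ i, V (fun i => ((a i : ℤ) : K)) u i =
      (-1) ^ u.natDegree * u.eval ((a i : ℤ) : K) := by
    intro i
    unfold V
    rw [if_pos (hs i).1]
  refine h1.congr (fun i => ?_) fun i => ?_
  · rw [h2 i]
    exact mul_ne_zero (pow_ne_zero _ (by simp)) (hs i).1
  · rw [h2 i]
    exact (hs i).2

theorem pt_LocJ {a d : Fin 3 → ℤ} 
    (h : Pt (fun i => ((a i : ℤ) : K)) (fun i => ((d i : ℤ) : K))) : LocJ K a d := by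
  obtain ⟨x, y, hy, hxy, hs⟩ := h
  refine ⟨X - C x, C y, monic_X_sub_C _, ?_, fun i => ?_⟩
  · rw [dvd_iff_isRoot, IsRoot, eval_sub, eval_pow, eval_C, eval_prod, hxy]
    simp
  · have h5 : x - ((a i : ℤ) : K) ≠ 0 := by
      intro h6
      have h7 : ∏ i, (x - ((a i : ℤ) : K)) = 0 := Finset.prod_eq_zero (Finset.mem_univ i) h6
      rw [← hxy] at h7
      exact hy (pow_eq_zero_iff (two_ne_zero) |>.1 h7)
    rw [eval_sub, eval_X, eval_C, natDegree_X_sub_C]
    refine ⟨fun h => h5 (by rw [← neg_sub, h, neg_zero]), ?_⟩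
    have h6 := hs i
    rwa [show (-1) ^ 1 * (((a i : ℤ) : K) - x) * ((d i : ℤ) : K) =
      (x - ((a i : ℤ) : K)) * ((d i : ℤ) : K) from by ring]

end field

/-! ### The roots -/

theorem coef {A B : ℤ} {e : Fin 3 → ℤ}
    (h : ∀ x : ℤ, x ^ 3 + A * x + B = (x - e 0) * (x - e 1) * (x - e 2)) :
    e 0 + e 1 + e 2 = 0 ∧ A = e 0 * e 1 + e 0 * e 2 + e 1 * e 2 ∧ B = - (e 0 * e 1 * e 2) := by
  have h0 := h 0
  have h1 := h 1
  have h2 := h (-1)
  have h3 : B = - (e 0 * e 1 * e 2) := by linear_combination h0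
  have h4 : 2 * (e 0 + e 1 + e 2) = 0 := by linear_combination h1 + h2 - 2 * h0
  have h5 : e 0 + e 1 + e 2 = 0 := by omega
  exact ⟨h5, by linear_combination h1 - h0 - h5, h3⟩

theorem cubK {K : Type} [Field K] {A B : ℤ} {e : Fin 3 → ℤ}
    (h : ∀ x : ℤ, x ^ 3 + A * x + B = (x - e 0) * (x - e 1) * (x - e 2)) (x : K) :
    x ^ 3 + A * x + B = ∏ i, (x - ((e i : ℤ) : K)) := by
  obtain ⟨h1, h2, h3⟩ := coef h
  have h1' : (e 0 : K) + e 1 + e 2 = 0 := by exact_mod_cast congrArg (Int.cast : ℤ → K) h1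
  rw [Fin.prod_univ_three, h2, h3]
  push_cast
  linear_combination x ^ 2 * h1'

theorem root_iff {A B : ℤ} {e : Fin 3 → ℤ}
    (h : ∀ x : ℤ, x ^ 3 + A * x + B = (x - e 0) * (x - e 1) * (x - e 2)) (x : ℤ) :
    x ^ 3 + A * x + B = 0 ↔ ∃ i, e i = x := by
  rw [h x, mul_eq_zero, mul_eq_zero, sub_eq_zero, sub_eq_zero, sub_eq_zero]
  constructor
  · rintro ((h | h) | h)
    · exact ⟨0, h.symm⟩
    · exact ⟨1, h.symm⟩
    · exact ⟨2, h.symm⟩
  · rintro ⟨i, rfl⟩
    fin_cases i <;> simp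

theorem loc_iff {K : Type} [Field K] [CharZero K] (hK : H3 K) {A B : ℤ} {e : Fin 3 → ℤ}
    (he : Function.Injective e)
    (h : ∀ x : ℤ, x ^ 3 + A * x + B = (x - e 0) * (x - e 1) * (x - e 2)) (d : ℤ → ℤ) :
    LocR K A B d ↔ LocJ K e (d ∘ e) := by
  constructor
  · rintro ⟨x, y, hy, hxy, hs⟩
    refine pt_LocJ ⟨x, y, hy, by rw [hxy, cubK h x], fun i => ?_⟩
    exact hs (e i) ((root_iff h _).2 ⟨i, rfl⟩)
  · intro hJ
    have he' : Function.Injective fun i => ((e i : ℤ) : K) := Int.cast_injective.comp he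
    obtain ⟨x, y, hy, hxy, hs⟩ := LocJ_pt hK he' hJ
    refine ⟨x, y, hy, by rw [hxy, cubK h x], fun z hz => ?_⟩
    obtain ⟨i, rfl⟩ := (root_iff h z).1 hz
    exact hs i

/-! ### Squares near one -/

theorem H3_of {K : Type} [NontriviallyNormedField K] (h : ∀ᶠ z in 𝓝 (1 : K), IsSquare z) :
    H3 K := by
  intro a
  have h1 : ∀ i, ∀ᶠ s in 𝓝[≠] (0 : K), ∃ r : K, r ≠ 0 ∧ 1 + a i * s ^ 2 = r ^ 2 := by
    intro i
    have h2 : Tendsto (fun s : K => 1 + a i * s ^ 2) (𝓝[≠] 0) (𝓝 1) := by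
      have h3 : Continuous fun s : K => 1 + a i * s ^ 2 := by fun_prop
      have h4 := h3.tendsto 0
      simp only [ne_eq, OfNat.ofNat_ne_zero, not_false_eq_true, zero_pow, mul_zero, add_zero] at h4
      exact h4.mono_left nhdsWithin_le_nhds
    have h5 : ∀ᶠ z in 𝓝 (1 : K), z ≠ 0 := isOpen_ne.mem_nhds one_ne_zero
    filter_upwards [h2.eventually h, h2.eventually h5] with s hs hs0
    obtain ⟨r, hr⟩ := hs
    refine ⟨r, ?_, by rw [hr, pow_two]⟩
    rintro rfl
    exact hs0 (by rw [hr, mul_zero])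
  have h2 : ∀ᶠ s in 𝓝[≠] (0 : K), s ≠ 0 := self_mem_nhdsWithin
  obtain ⟨s, hs, hs0⟩ := ((eventually_all.2 h1).and h2).exists
  exact ⟨s, hs0, hs⟩

theorem H3_real : H3 ℝ := by
  apply H3_of
  filter_upwards [lt_mem_nhds (zero_lt_one (α := ℝ))] with z hz
  exact ⟨√z, (Real.mul_self_sqrt hz.le).symm⟩

theorem hens (p : ℕ) [hp : Fact p.Prime] (w : ℤ_[p]) : IsSquare (1 + 4 * p * w) := by
  let F : Polynomial ℤ_[p] := Polynomial.X ^ 2 - Polynomial.C (1 + 4 * p * w)
  have h1 : F.aeval (1 : ℤ_[p]) = -(4 * p * w) := by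
    simp [F]
  have h2 : F.derivative.aeval (1 : ℤ_[p]) = 2 := by
    simp [F, one_add_one_eq_two]
  have h4 : 0 < ‖(4 : ℤ_[p])‖ := norm_pos_iff.2 (by norm_num)
  obtain ⟨z, hz, -⟩ := hensels_lemma (p := p) (R := ℤ_[p]) (F := F) (a := 1) (by
    rw [h1, h2, norm_neg, norm_mul, norm_mul]
    have h5 : ‖(2 : ℤ_[p])‖ ^ 2 = ‖(4 : ℤ_[p])‖ := by
      rw [← norm_pow]
      norm_num
    rw [h5]
    have h6 : ‖(p : ℤ_[p])‖ < 1 := by
      rw [PadicInt.norm_p]
      exact inv_lt_one_of_one_lt₀ (by exact_mod_cast hp.out.one_lt)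
    have h7 : ‖w‖ ≤ 1 := PadicInt.norm_le_one w
    calc ‖(4 : ℤ_[p])‖ * ‖(p : ℤ_[p])‖ * ‖w‖ ≤ ‖(4 : ℤ_[p])‖ * ‖(p : ℤ_[p])‖ * 1 := by
          gcongr
      _ < ‖(4 : ℤ_[p])‖ * 1 := by
          rw [mul_one]
          exact mul_lt_mul_of_pos_left h6 h4
      _ = ‖(4 : ℤ_[p])‖ := mul_one _)
  refine ⟨z, ?_⟩
  have : F.aeval z = z ^ 2 - (1 + 4 * p * w) := by simp [F]
  rw [this] at hz
  rw [← pow_two]
  exact (sub_eq_zero.1 hz).symm

theorem H3_padic (p : ℕ) [hp : Fact p.Prime] : H3 ℚ_[p] := by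
  apply H3_of
  have hp0 : (p : ℚ_[p]) ≠ 0 := by exact_mod_cast hp.out.ne_zero
  have h4 : (4 * p : ℚ_[p]) ≠ 0 := mul_ne_zero (by norm_num) hp0
  have h1 : Tendsto (fun z : ℚ_[p] => (z - 1) / (4 * (p : ℚ_[p]))) (𝓝 1) (𝓝 0) := by
    have h3 : Continuous fun z : ℚ_[p] => (z - 1) / (4 * (p : ℚ_[p])) := by fun_prop
    have h5 := h3.tendsto 1
    simpa using h5
  have h2 : ∀ᶠ z in 𝓝 (1 : ℚ_[p]), ‖(z - 1) / (4 * (p : ℚ_[p]))‖ < 1 := by
    have := h1.eventually (Metric.ball_mem_nhds 0 one_pos)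
    filter_upwards [this] with z hz
    simpa using hz
  filter_upwards [h2] with z hz
  obtain ⟨w, hw⟩ : ∃ w : ℤ_[p], (w : ℚ_[p]) = (z - 1) / (4 * (p : ℚ_[p])) := ⟨⟨_, hz.le⟩, rfl⟩
  obtain ⟨r, hr⟩ := hens p w
  refine ⟨(r : ℚ_[p]), ?_⟩
  have h6 := congrArg (fun t : ℤ_[p] => (t : ℚ_[p])) hr
  have h7 : (((4 : ℤ_[p]) : ℤ_[p]) : ℚ_[p]) = 4 := by
    have := PadicInt.coe_natCast (p := p) 4
    exact_mod_cast this
  simp only [PadicInt.coe_add, PadicInt.coe_mul, PadicInt.coe_one, PadicInt.coe_natCast, h7] at h6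
  rw [← h6, hw, mul_div_cancel₀ _ h4]
  ring

/-! ### The theorem -/

open Classical in
/-- the extension by one -/
noncomputable def ext (e : Fin 3 → ℤ) (δ : Fin 3 → ℤ) (x : ℤ) : ℤ :=
  if h : ∃ i, e i = x then δ h.choose else 1

theorem ext_e {e : Fin 3 → ℤ} (he : Function.Injective e) (δ : Fin 3 → ℤ) (i : Fin 3) :
    ext e δ (e i) = δ i := by
  have h : ∃ j, e j = e i := ⟨i, rfl⟩
  unfold ext
  rw [dif_pos h]
  exact congrArg δ (he h.choose_spec)

theorem t_ELL : Q44.JQ.S_ELL := by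
  intro A B e he h hfin
  have hmem : ∀ d : ℤ → ℤ, (∀ x, (¬ ∃ i, e i = x) → d x = 1) → (d ∘ e ∈ SelJ e ↔ d ∈ SelR A B) := by
    intro d hd
    constructor
    · rintro ⟨h1, h2, h3⟩
      refine ⟨fun x => ?_, fun x hx => ?_, (loc_iff H3_real he h d).2 h2, fun p hp =>
        (loc_iff (H3_padic p) he h d).2 (h3 p)⟩
      · by_cases hx : ∃ i, e i = x
        · obtain ⟨i, rfl⟩ := hx
          exact h1 i
        · rw [hd x hx]
          exact squarefree_one
      · exact hd x fun h' => hx ((root_iff h x).2 h')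
    · rintro ⟨h1, h2, h3, h4⟩
      exact ⟨fun i => h1 (e i), (loc_iff H3_real he h d).1 h3, fun p hp =>
        (loc_iff (H3_padic p) he h d).1 (h4 p)⟩
  have himg : (fun d : ℤ → ℤ => d ∘ e) '' (SelR A B) = SelJ e := by
    ext δ
    constructor
    · rintro ⟨d, hd, rfl⟩
      exact (hmem d fun x hx => hd.2.1 x fun h' => hx ((root_iff h x).1 h')).2 hd
    · intro hδ
      have h1 : ext e δ ∘ e = δ := by
        funext i
        exact ext_e he δ i
      refine ⟨ext e δ, ?_, h1⟩
      refine (hmem _ fun x hx => ?_).1 (by rw [h1]; exact hδ)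
      unfold ext
      rw [dif_neg hx]
  have hinj : Set.InjOn (fun d : ℤ → ℤ => d ∘ e) (SelR A B) := by
    intro d hd d' hd' hdd
    funext x
    by_cases hx : ∃ i, e i = x
    · obtain ⟨i, rfl⟩ := hx
      exact congrFun hdd i
    · have hx' : x ^ 3 + A * x + B ≠ 0 := fun h' => hx ((root_iff h x).1 h')
      rw [hd.2.1 x hx', hd'.2.1 x hx']
  refine ⟨?_, ?_⟩
  · rw [← himg] at hfin
    exact Set.Finite.of_finite_image hfin hinj
  · rw [← himg, hinj.ncard_image]

end Q182.JQ.ELL
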