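import Pool.Agent.Q44.JQ.Stm

/-!
# JQ-PROB
-/

set_option autoImplicit false
set_option linter.unusedVariables false

namespace Q182.JQ

open Finset Module Q44.JQ
open Pool.Agent.Y703.CQ (prs ext)
open scoped Classical

theorem sg_zero : sg 0 = 1 := by simp [sg]

theorem z2 (a : ZMod 2) : a = 0 ∨ a = 1 := by
  revert a; decide

theorem sg_one : sg 1 = -1 := by
  have h : ¬ ((1 : ZMod 2) = 0) := by decide
  simp [sg, h]

theorem sg_add (a b : ZMod 2) : sg (a + b) = sg a * sg b := by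
  have h : (1 : ZMod 2) + 1 = 0 := by decide
  rcases z2 a with rfl | rfl <;> rcases z2 b with rfl | rfl <;>
    simp [sg_zero, sg_one, h]

theorem sg_sum {α : Type} (s : Finset α) (f : α → ZMod 2) :
    sg (∑ i ∈ s, f i) = ∏ i ∈ s, sg (f i) := by
  induction s using Finset.induction_on with
  | empty => simp [sg_zero]
  | insert a s ha ih => rw [sum_insert ha, prod_insert ha, sg_add, ih]

section V

variable {V : Type} [AddCommGroup V] [Module (ZMod 2) V]

theorem symm_of_alt (ω : V →ₗ[ZMod 2] V →ₗ[ZMod 2] ZMod 2) (h : ∀ x, ω x x = 0) (x y : V) :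
    ω x y = ω y x := by
  have h1 := h (x + y)
  simp only [map_add, LinearMap.add_apply, h x, h y, zero_add, add_zero] at h1
  have h2 : ω x y + ω y x = 0 := by rw [add_comm]; exact h1
  generalize ω x y = a at h2 ⊢
  generalize ω y x = b at h2 ⊢
  revert a b
  decide

theorem add_self' (x : V) : x + x = 0 := by
  have h : ((1 : ZMod 2) + 1) • x = 0 := by
    have h1 : (1 : ZMod 2) + 1 = 0 := by decide
    rw [h1, zero_smul]
  simpa [add_smul] using h

/-- orthogonality of the characters of `V` -/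
theorem sum_sg [Fintype V] (ω : V →ₗ[ZMod 2] V →ₗ[ZMod 2] ZMod 2) (h : ∀ x, ω x x = 0)
    (nd : ∀ x, (∀ y, ω x y = 0) → x = 0) (r : V) :
    ∑ v : V, sg (ω v r) = if r = 0 then (Fintype.card V : ℝ) else 0 := by
  by_cases hr : r = 0
  · subst hr
    simp [sg_zero]
  · rw [if_neg hr]
    have h1 : ∃ y, ω r y ≠ 0 := by
      by_contra hc
      push Not at hc
      exact hr (nd r hc)
    obtain ⟨y, hy⟩ := h1
    have hy1 : ω y r = 1 := by
      rw [symm_of_alt ω h y r]
      rcases z2 (ω r y) with h2 | h2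
      · exact absurd h2 hy
      · exact h2
    have h3 : ∑ v : V, sg (ω v r) = ∑ v : V, sg (ω (v + y) r) :=
      (Fintype.sum_equiv (Equiv.addRight y) _ _ fun v => by simp).symm
    have h4 : ∑ v : V, sg (ω (v + y) r) = - ∑ v : V, sg (ω v r) := by
      rw [← Finset.sum_neg_distrib]
      refine Finset.sum_congr rfl fun v _ => ?_
      rw [map_add, LinearMap.add_apply, sg_add, hy1, sg_one]
      ring
    linarith

end V

/-- product of sums of characters -/
theorem sum_pi {ι V : Type} [Fintype ι] [DecidableEq ι] [Fintype V] (f : ι → V → ZMod 2) :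
    ∑ W : ι → V, sg (∑ i, f i (W i)) = ∏ i, ∑ v : V, sg (f i v) := by
  rw [Finset.prod_univ_sum]
  simp only [Fintype.piFinset_univ]
  exact Finset.sum_congr rfl fun W _ => sg_sum _ _

theorem sum_two (c : ZMod 2) : ∑ a : ZMod 2, sg (a * c) = if c = 0 then 2 else 0 := by
  have h : ∑ a : ZMod 2, sg (a * c) = sg (0 * c) + sg (1 * c) := Fin.sum_univ_two _
  rw [h]
  rcases z2 c with rfl | rfl
  · simp [sg_zero]; norm_num
  · simp [sg_zero, sg_one]

theorem sum_alpha {ι : Type} [Fintype ι] [DecidableEq ι] (c : ι → ZMod 2) :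
    ∑ α : ι → ZMod 2, sg (∑ p, α p * c p) =
      if ∀ p, c p = 0 then (2 : ℝ) ^ Fintype.card ι else 0 := by
  rw [sum_pi fun p a => a * c p]
  simp only [sum_two]
  by_cases hc : ∀ p, c p = 0
  · rw [if_pos hc, Finset.prod_congr rfl fun p _ => if_pos (hc p)]
    simp
  · rw [if_neg hc]
    push Not at hc
    obtain ⟨p, hp⟩ := hc
    exact Finset.prod_eq_zero (mem_univ p) (if_neg hp)

section ext

variable {ι : Type} [Fintype ι] [LinearOrder ι]

theorem mem_prs (i j : ι) : (i, j) ∈ prs (univ : Finset ι) ↔ i < j := by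
  simp only [prs, mem_filter, mem_univ, true_and, forall_const]
  exact ⟨fun h => h.2, fun h => ⟨ne_of_gt h, h⟩⟩

/-- the half of `ext` -/
noncomputable def hf (α : prs (univ : Finset ι) → ZMod 2) (k l : ι) : ZMod 2 :=
  if h : (k, l) ∈ prs (univ : Finset ι) then α ⟨(k, l), h⟩ else 0

theorem ext_eq (α : prs (univ : Finset ι) → ZMod 2) (k l : ι) :
    ext α k l = hf α k l + hf α l k := by
  unfold Pool.Agent.Y703.CQ.ext hf
  by_cases h : (k, l) ∈ prs (univ : Finset ι)
  · have h' : (l, k) ∉ prs (univ : Finset ι) := by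
      rw [mem_prs] at h ⊢
      exact not_lt_of_gt h
    rw [dif_pos h, dif_pos h, dif_neg h', add_zero]
  · rw [dif_neg h, dif_neg h, zero_add]
    by_cases h' : (l, k) ∈ prs (univ : Finset ι)
    · rw [dif_pos ⟨h', mem_univ _⟩, dif_pos h']
    · rw [dif_neg h', dif_neg fun h2 => h' h2.1]

theorem sum_hf (α : prs (univ : Finset ι) → ZMod 2) (g : ι → ι → ZMod 2) :
    ∑ k, ∑ l, hf α k l * g k l = ∑ p : prs (univ : Finset ι), α p * g p.1.1 p.1.2 := by
  have h1 : ∀ p : prs (univ : Finset ι), α p * g p.1.1 p.1.2 =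
      (fun x : ι × ι => hf α x.1 x.2 * g x.1 x.2) p.1 := by
    intro p
    have h2 : hf α p.1.1 p.1.2 = α p := by
      unfold hf
      rw [dif_pos p.2]
    show _ = hf α p.1.1 p.1.2 * g p.1.1 p.1.2
    rw [h2]
  rw [Finset.sum_congr rfl fun p _ => h1 p]
  rw [Finset.sum_coe_sort (prs (univ : Finset ι))
    (fun x : ι × ι => hf α x.1 x.2 * g x.1 x.2)]
  rw [← Fintype.sum_prod_type' (fun k l => hf α k l * g k l)]
  symm
  refine Finset.sum_subset (subset_univ _) fun x _ hx => ?_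
  have h3 : hf α x.1 x.2 = 0 := by
    unfold hf
    rw [dif_neg hx]
  rw [h3, zero_mul]

theorem sum_ext (α : prs (univ : Finset ι) → ZMod 2) (g : ι → ι → ZMod 2) :
    ∑ k, ∑ l, ext α k l * g k l =
      ∑ p : prs (univ : Finset ι), α p * (g p.1.1 p.1.2 + g p.1.2 p.1.1) := by
  have h1 : ∑ k, ∑ l, ext α k l * g k l = ∑ k, ∑ l, hf α k l * (g k l + g l k) := by
    simp only [ext_eq, add_mul, mul_add, sum_add_distrib]
    refine congrArg₂ (· + ·) rfl ?_
    exact Finset.sum_comm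
  rw [h1, sum_hf α fun k l => g k l + g l k]

theorem ext_zero (k l : ι) : ext (0 : prs (univ : Finset ι) → ZMod 2) k l = 0 := by
  rw [ext_eq]
  unfold hf
  simp

end ext

section main

variable {s V U ι : Type} [Fintype s] [AddCommGroup V] [Module (ZMod 2) V]
  [Fintype U] [Fintype ι] [LinearOrder ι]

theorem N_add (D : Dj s V) (b : Bk s U ι) (α : prs (univ : Finset ι) → ZMod 2) (i : ι)
    (q : U ⊕ ι) : b.N D.s₀ α (Sum.inr i) q =
      b.N D.s₀ 0 (Sum.inr i) q + Sum.elim (fun _ => 0) (fun j => ext α i j) q := by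
  rcases q with u | j
  · simp [Bk.N]
  · simp only [Bk.N, Sum.elim_inr, ext_zero, zero_add]
    rw [add_comm]

theorem row_add (D : Dj s V) (b : Bk s U ι) (e : (s → V) × (U ⊕ ι → V))
    (α : prs (univ : Finset ι) → ZMod 2) (i : ι) :
    rowL D (b.N D.s₀ α) b.h e (Sum.inr i) = rowL D (b.N D.s₀ 0) b.h e (Sum.inr i) +
      ∑ j, ext α i j • (e.2 (Sum.inr j) + e.2 (Sum.inr i)) := by
  show (∑ q, b.N D.s₀ α (Sum.inr i) q • (e.2 q + e.2 (Sum.inr i)) + _ + _ : V) =
    (∑ q, b.N D.s₀ 0 (Sum.inr i) q • (e.2 q + e.2 (Sum.inr i)) + _ + _) + _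
  simp only [N_add D b α, add_smul, sum_add_distrib, Fintype.sum_sum_type, Sum.elim_inl,
    Sum.elim_inr, zero_smul, sum_const_zero, zero_add]
  abel

theorem expo (D : Dj s V) (b : Bk s U ι) (e : (s → V) × (U ⊕ ι → V)) (hD : D.Sym)
    (W : ι → V) (α : prs (univ : Finset ι) → ZMod 2) :
    ∑ i, D.ω (W i) (rowL D (b.N D.s₀ α) b.h e (Sum.inr i)) =
      ∑ i, D.ω (W i) (rowL D (b.N D.s₀ 0) b.h e (Sum.inr i)) +
      ∑ p : prs (univ : Finset ι), α p *
        D.ω (W p.1.1 + W p.1.2) (e.2 (Sum.inr p.1.1) + e.2 (Sum.inr p.1.2)) := by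
  have h1 : ∑ i, D.ω (W i) (rowL D (b.N D.s₀ α) b.h e (Sum.inr i)) =
      ∑ i, D.ω (W i) (rowL D (b.N D.s₀ 0) b.h e (Sum.inr i)) +
      ∑ i, ∑ j, ext α i j * D.ω (W i) (e.2 (Sum.inr j) + e.2 (Sum.inr i)) := by
    rw [← sum_add_distrib]
    refine Finset.sum_congr rfl fun i _ => ?_
    rw [row_add, map_add, map_sum]
    simp only [map_smul, smul_eq_mul]
  rw [h1, sum_ext α fun i j => D.ω (W i) (e.2 (Sum.inr j) + e.2 (Sum.inr i))]
  refine congrArg₂ (· + ·) rfl (Finset.sum_congr rfl fun p _ => ?_)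
  rw [map_add D.ω, LinearMap.add_apply, add_comm (e.2 (Sum.inr p.1.2)) (e.2 (Sum.inr p.1.1))]

theorem cond_iff (D : Dj s V) (hD : D.Sym) (W x : ι → V) :
    (∀ i j, D.ω (W i + W j) (x i + x j) = 0) ↔
      ∀ p : prs (univ : Finset ι), D.ω (W p.1.1 + W p.1.2) (x p.1.1 + x p.1.2) = 0 := by
  constructor
  · intro h p
    exact h _ _
  · intro h i j
    rcases lt_trichotomy i j with h1 | h1 | h1
    · exact h ⟨(i, j), (mem_prs i j).2 h1⟩
    · subst h1
      rw [add_self', map_zero, LinearMap.zero_apply]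
    · have h2 := h ⟨(j, i), (mem_prs j i).2 h1⟩
      rw [add_comm (W i), add_comm (x i)]
      exact h2

end main

theorem t_PROB : S_PROB := by
  intro s V U ι _ _ _ _ _ _ _ D hD nd b e
  set R : (prs (univ : Finset ι) → ZMod 2) → ι → V :=
    fun α i => rowL D (b.N D.s₀ α) b.h e (Sum.inr i) with hR
  have h1 : ∀ α, ∑ W : ι → V, sg (∑ i, D.ω (W i) (R α i)) =
      if ∀ i, R α i = 0 then (Fintype.card V : ℝ) ^ Fintype.card ι else 0 := by
    intro α
    rw [sum_pi fun i v => D.ω v (R α i)]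
    simp only [sum_sg D.ω hD.alt nd]
    by_cases hc : ∀ i, R α i = 0
    · rw [if_pos hc, Finset.prod_congr rfl fun p _ => if_pos (hc p)]
      simp
    · rw [if_neg hc]
      push Not at hc
      obtain ⟨p, hp⟩ := hc
      exact Finset.prod_eq_zero (mem_univ p) (if_neg hp)
  have h2 : (((univ : Finset (prs (univ : Finset ι) → ZMod 2)).filter fun α =>
      ∀ i, R α i = 0).card : ℝ) * (Fintype.card V : ℝ) ^ Fintype.card ι =
      ∑ α, ∑ W : ι → V, sg (∑ i, D.ω (W i) (R α i)) := by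
    simp only [h1]
    rw [← Finset.sum_filter, Finset.sum_const, nsmul_eq_mul]
  show (((univ : Finset (prs (univ : Finset ι) → ZMod 2)).filter fun α =>
      ∀ i, R α i = 0).card : ℝ) * (Fintype.card V : ℝ) ^ Fintype.card ι = _
  rw [h2, Finset.sum_comm, Finset.mul_sum]
  refine Finset.sum_congr rfl fun W _ => ?_
  have h3 : ∀ α, sg (∑ i, D.ω (W i) (R α i)) =
      sg (∑ i, D.ω (W i) (R 0 i)) * sg (∑ p : prs (univ : Finset ι), α p *
        D.ω (W p.1.1 + W p.1.2) (e.2 (Sum.inr p.1.1) + e.2 (Sum.inr p.1.2))) := by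
    intro α
    rw [← sg_add]
    exact congrArg sg (expo D b e hD W α)
  rw [Finset.sum_congr rfl fun α _ => h3 α]
  rw [← Finset.mul_sum, sum_alpha]
  have h4 := cond_iff D hD W fun i => e.2 (Sum.inr i)
  by_cases hc : ∀ i j, D.ω (W i + W j) (e.2 (Sum.inr i) + e.2 (Sum.inr j)) = 0
  · rw [if_pos hc, if_pos (h4.1 hc)]
    rw [Fintype.card_coe, mul_comm]
  · rw [if_neg hc, if_neg fun h => hc (h4.2 h)]
    ring

end Q182.JQ
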